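import Mathlib
import Pool.Agent.Helper50.PercB

/-!
# Induced paths as lists, and slow percolating sets from them
-/

set_option autoImplicit false

namespace Pool.Agent.Helper18.Snake

open SimpleGraph Pool.Agent.Helper19.Perco

variable {V W : Type*}

/-- induced paths, as lists -/
def Ind (G : SimpleGraph V) : List V → Prop
  | [] => True
  | x :: l => (∀ z ∈ l, x ≠ z) ∧ (∀ z ∈ l, G.Adj x z ↔ l.head? = some z) ∧ Ind G l

theorem ind_nil (G : SimpleGraph V) : Ind G [] := trivial

theorem ind_single (G : SimpleGraph V) (x : V) : Ind G [x] := by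
  refine ⟨?_, ?_, trivial⟩ <;> simp

theorem ind_pair (G : SimpleGraph V) {x y : V} (h : G.Adj x y) : Ind G [x, y] := by
  refine ⟨?_, ?_, ind_single G y⟩
  · simp [h.ne]
  · simp [h]

theorem Ind.append {G : SimpleGraph V} {l₁ l₂ : List V} (h₁ : Ind G l₁) (h₂ : Ind G l₂)
    (hne : ∀ u ∈ l₁, ∀ v ∈ l₂, u ≠ v)
    (had : ∀ u ∈ l₁, ∀ v ∈ l₂, (G.Adj u v ↔ l₁.getLast? = some u ∧ l₂.head? = some v)) :
    Ind G (l₁ ++ l₂) := by
  induction l₁ with
  | nil => exact h₂
  | cons x l ih =>
    obtain ⟨a1, a2, a3⟩ := h₁
    refine ⟨?_, ?_, ?_⟩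
    · intro z hz
      rcases List.mem_append.1 hz with hz | hz
      · exact a1 z hz
      · exact hne x (by simp) z hz
    · intro z hz
      rcases l with _ | ⟨y, l'⟩
      · have hz' : z ∈ l₂ := by simpa using hz
        rw [had x (by simp) z hz']
        simp
      · rcases List.mem_append.1 hz with hz | hz
        · rw [a2 z hz]
          simp
        · rw [had x (by simp) z hz]
          constructor
          · rintro ⟨h, _⟩
            exfalso
            rw [List.getLast?_cons_cons] at h
            exact a1 x (List.mem_of_getLast? h) rfl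
          · intro h
            exfalso
            have : y = z := by simpa using h
            exact hne y (by simp) z hz this
    · apply ih a3
      · intro u hu v hv
        exact hne u (by simp [hu]) v hv
      · intro u hu v hv
        rw [had u (by simp [hu]) v hv]
        rcases l with _ | ⟨y, l'⟩
        · simp at hu
        · rw [List.getLast?_cons_cons]

theorem Ind.reverse {G : SimpleGraph V} {l : List V} (h : Ind G l) : Ind G l.reverse := by
  induction l with
  | nil => exact h
  | cons x l ih =>
    obtain ⟨a1, a2, a3⟩ := h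
    rw [List.reverse_cons]
    apply Ind.append (ih a3) (ind_single G x)
    · intro u hu v hv
      have hv' : v = x := by simpa using hv
      rw [hv']
      exact (a1 u (by simpa using hu)).symm
    · intro u hu v hv
      have hv' : v = x := by simpa using hv
      rw [hv', G.adj_comm, a2 u (by simpa using hu)]
      simp

theorem Ind.map {G : SimpleGraph V} {H : SimpleGraph W} (f : V → W) {l : List V} (h : Ind G l)
    (hinj : ∀ u ∈ l, ∀ v ∈ l, f u = f v → u = v)
    (hadj : ∀ u ∈ l, ∀ v ∈ l, (H.Adj (f u) (f v) ↔ G.Adj u v)) : Ind H (l.map f) := by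
  induction l with
  | nil => exact trivial
  | cons x l ih =>
    obtain ⟨a1, a2, a3⟩ := h
    refine ⟨?_, ?_, ?_⟩
    · intro z hz
      obtain ⟨u, hu, rfl⟩ := List.mem_map.1 hz
      intro h
      exact a1 u hu (hinj x (by simp) u (by simp [hu]) h)
    · intro z hz
      obtain ⟨u, hu, rfl⟩ := List.mem_map.1 hz
      rw [hadj x (by simp) u (by simp [hu]), a2 u hu]
      show l.head? = some u ↔ (l.map f).head? = some (f u)
      rw [List.head?_map]
      constructor
      · intro h; rw [h]; rfl
      · intro h
        obtain ⟨w, hw, hw2⟩ := Option.map_eq_some_iff.1 h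
        rw [hw]
        have hwl : w ∈ l := List.mem_of_mem_head? hw
        rw [hinj w (by simp [hwl]) u (by simp [hu]) hw2]
    · apply ih a3
      · intro u hu v hv; exact hinj u (by simp [hu]) v (by simp [hv])
      · intro u hu v hv; exact hadj u (by simp [hu]) v (by simp [hv])

theorem Ind.nodup {G : SimpleGraph V} {l : List V} (h : Ind G l) : l.Nodup := by
  induction l with
  | nil => exact List.nodup_nil
  | cons x l ih =>
    obtain ⟨a1, a2, a3⟩ := h
    rw [List.nodup_cons]
    exact ⟨fun hx => a1 x hx rfl, ih a3⟩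

theorem Ind.get {G : SimpleGraph V} {l : List V} (h : Ind G l) :
    ∀ i j (_ : i < j) (hj : j < l.length), (G.Adj (l[i]'(by omega)) l[j] ↔ j = i + 1) := by
  induction l with
  | nil => intro i j _ hj; simp at hj
  | cons x l ih =>
    obtain ⟨a1, a2, a3⟩ := h
    intro i j hij hj
    obtain ⟨j', rfl⟩ : ∃ j', j = j' + 1 := ⟨j - 1, by omega⟩
    have hj' : j' < l.length := by simpa using hj
    rcases i with _ | i'
    · simp only [List.getElem_cons_zero, List.getElem_cons_succ]
      rw [a2 _ (List.getElem_mem hj'), List.head?_eq_getElem?]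
      constructor
      · intro h
        have h0 : 0 < l.length := by omega
        rw [List.getElem?_eq_getElem h0, Option.some_inj] at h
        have := (List.Nodup.getElem_inj_iff a3.nodup (hi := h0) (hj := hj')).1 h
        omega
      · intro h
        have : j' = 0 := by omega
        subst this
        rw [List.getElem?_eq_getElem hj']
    · simp only [List.getElem_cons_succ]
      rw [ih a3 i' j' (by omega) hj']
      omega

theorem Ind.get' {G : SimpleGraph V} {l : List V} (h : Ind G l)
    (i j : ℕ) (hi : i < l.length) (hj : j < l.length) :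
    (G.Adj l[i] l[j] ↔ (j = i + 1 ∨ i = j + 1)) := by
  rcases lt_trichotomy i j with h1 | h1 | h1
  · rw [h.get i j h1 hj]; omega
  · subst h1
    constructor
    · intro h2; exact absurd h2 (G.irrefl)
    · intro h2; omega
  · rw [G.adj_comm, h.get j i h1 hi]; omega

theorem cnt_split [Finite V] (G : SimpleGraph V) (S : Set V) (v : V) :
    cnt G Set.univ v = cnt G S v + cnt G Sᶜ v := by
  unfold cnt
  rw [Set.inter_univ]
  have h : G.neighborSet v = (G.neighborSet v ∩ S) ∪ (G.neighborSet v ∩ Sᶜ) := by
    rw [← Set.inter_union_distrib_left, Set.union_compl_self, Set.inter_univ]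
  conv_lhs => rw [h]
  rw [Set.ncard_union_eq ?_ (Set.toFinite _) (Set.toFinite _)]
  rw [Set.disjoint_left]
  rintro x ⟨_, h1⟩ ⟨_, h2⟩
  exact h2 h1

open Classical in
/-- a long induced path whose vertices have full degree, except the last one, is slow -/
theorem slow_of_ind [Finite V] (G : SimpleGraph V) {r : ℕ} (hr : 1 ≤ r) {l : List V}
    (h : Ind G l) (hl : 2 ≤ l.length)
    (hdeg : ∀ i (hi : i + 1 < l.length), cnt G Set.univ (l[i]'(by omega)) = r + 1)
    (hlast : cnt G Set.univ (l[l.length - 1]'(by omega)) = r) {T : ℕ} (hT : T < l.length) :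
    Slow G r T := by
  set τ : V → ℤ := fun v => if v ∈ l then (l.idxOf v : ℤ) + 1 else 0 with hτ
  have hτi : ∀ i (hi : i < l.length), τ l[i] = i + 1 := by
    intro i hi
    simp only [hτ]
    rw [if_pos (List.getElem_mem hi), List.Nodup.idxOf_getElem h.nodup]
  have hpos : ∀ v, 0 < τ v → ∃ i, ∃ hi : i < l.length, l[i] = v := by
    intro v hv
    by_cases hm : v ∈ l
    · obtain ⟨i, hi, h1⟩ := List.getElem_of_mem hm
      exact ⟨i, hi, h1⟩
    · simp only [hτ, if_neg hm] at hv
      omega
  refine Pool.Agent.Helper50.PercC.slow_of_time G r τ ?_ ?_ ?_ (T := T) (v := l[T]) ?_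
  · intro v
    simp only [hτ]
    split_ifs
    · positivity
    · exact le_rfl
  · intro v hv
    obtain ⟨i, hi, rfl⟩ := hpos v hv
    rw [hτi i hi]
    rcases Nat.eq_zero_or_pos i with h0 | h0
    · have : cnt G {u | τ u + 2 ≤ ((i : ℕ) : ℤ) + 1} l[i] = 0 := by
        apply cnt_eq_zero
        intro u hu _
        have hu' : τ u + 2 ≤ ((i : ℕ) : ℤ) + 1 := hu
        have : 0 ≤ τ u := by
          simp only [hτ]
          split_ifs
          · positivity
          · exact le_rfl
        rw [h0] at hu'
        push_cast at hu'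
        omega
      omega
    · have hprev : G.Adj l[i] (l[i - 1]'(by omega)) := (h.get' i (i - 1) hi (by omega)).2
        (Or.inr (by omega))
      have hprevS : (l[i - 1]'(by omega)) ∈ {u | τ u + 2 ≤ ((i : ℕ) : ℤ) + 1}ᶜ := by
        intro hmem
        have hmem' : τ (l[i - 1]'(by omega)) + 2 ≤ ((i : ℕ) : ℤ) + 1 := hmem
        rw [hτi (i - 1) (by omega)] at hmem'
        omega
      have hsplit := cnt_split G {u | τ u + 2 ≤ ((i : ℕ) : ℤ) + 1} l[i]
      rcases Nat.lt_or_ge (i + 1) l.length with h1 | h1
      · have hnext : G.Adj l[i] (l[i + 1]'h1) := (h.get' i (i + 1) hi h1).2 (Or.inl rfl)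
        have hnextS : (l[i + 1]'h1) ∈ {u | τ u + 2 ≤ ((i : ℕ) : ℤ) + 1}ᶜ := by
          intro hmem
          have hmem' : τ (l[i + 1]'h1) + 2 ≤ ((i : ℕ) : ℤ) + 1 := hmem
          rw [hτi (i + 1) h1] at hmem'
          push_cast at hmem'
          omega
        have hne : (l[i - 1]'(by omega)) ≠ (l[i + 1]'h1) := by
          intro heq
          have := (List.Nodup.getElem_inj_iff h.nodup (hi := by omega) (hj := h1)).1 heq
          omega
        have h2 := two_le_cnt G _ _ _ _ hne hprev hnext hprevS hnextS
        rw [hdeg i h1] at hsplit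
        omega
      · have h2 := cnt_pos_of G _ _ _ hprev hprevS
        have hil : i = l.length - 1 := by omega
        have h3 : cnt G Set.univ l[i] = r := by
          subst hil; exact hlast
        rw [h3] at hsplit
        omega
  · intro v hv
    obtain ⟨i, hi, rfl⟩ := hpos v hv
    rw [hτi i hi]
    have hnb : ∀ u, G.Adj l[i] u → u ∈ ({u | τ u < ((i : ℕ) : ℤ) + 1} : Set V)ᶜ →
        ∃ h1 : i + 1 < l.length, u = l[i + 1] := by
      intro u hu hmem
      have hmem' : ¬ τ u < ((i : ℕ) : ℤ) + 1 := hmem
      obtain ⟨j, hj, rfl⟩ := hpos u (by push Not at hmem'; omega)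
      rw [hτi j hj] at hmem'
      rcases (h.get' i j hi hj).1 hu with h1 | h1
      · subst h1; exact ⟨hj, rfl⟩
      · exfalso; apply hmem'; omega
    have hsplit := cnt_split G {u | τ u < ((i : ℕ) : ℤ) + 1} l[i]
    rcases Nat.lt_or_ge (i + 1) l.length with h1 | h1
    · have h2 : cnt G ({u | τ u < ((i : ℕ) : ℤ) + 1} : Set V)ᶜ l[i] ≤ 1 := by
        apply cnt_le_one
        intro a ha2 b hb2 ha hb
        obtain ⟨_, h3⟩ := hnb a ha ha2
        obtain ⟨_, h4⟩ := hnb b hb hb2
        rw [h3, h4]
      rw [hdeg i h1] at hsplit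
      omega
    · have h2 : cnt G ({u | τ u < ((i : ℕ) : ℤ) + 1} : Set V)ᶜ l[i] = 0 := by
        apply cnt_eq_zero
        intro u hu2 hu
        obtain ⟨h3, _⟩ := hnb u hu hu2
        omega
      have hil : i = l.length - 1 := by omega
      have h3 : cnt G Set.univ l[i] = r := by
        subst hil; exact hlast
      rw [h3] at hsplit
      omega
  · rw [hτi T hT]; omega

end Pool.Agent.Helper18.Snake
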