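import Mathlib
import Pool.Agent.Helper18.Snake.Ind

/-!
# Stacking induced paths
-/

set_option autoImplicit false

namespace Pool.Agent.Helper18.Snake

open SimpleGraph Pool.Agent.Helper19.Perco

variable {V : Type*}

/-- the height `k` -/
def ht (n : ℕ) [NeZero n] (k : ℕ) : Fin n := ⟨k % n, Nat.mod_lt _ (NeZero.pos n)⟩

theorem ht_val {n : ℕ} [NeZero n] {k : ℕ} (h : k < n) : (ht n k).val = k := Nat.mod_eq_of_lt h

theorem ht_inj {n : ℕ} [NeZero n] {i j : ℕ} (hi : i < n) (hj : j < n) (h : ht n i = ht n j) :
    i = j := by
  have := congrArg Fin.val h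
  rwa [ht_val hi, ht_val hj] at this

/-- put the lists on consecutive heights -/
def lift (n : ℕ) [NeZero n] : ℕ → List (List V) → List (V × Fin n)
  | _, [] => []
  | k, s :: ss => s.map (fun x => (x, ht n k)) ++ lift n (k + 1) ss

variable {n : ℕ} [NeZero n]

theorem mem_lift {ss : List (List V)} : ∀ {k : ℕ} {p : V × Fin n}, p ∈ lift n k ss →
    ∃ i, i < ss.length ∧ p.2 = ht n (k + i) ∧ ∃ s ∈ ss, p.1 ∈ s := by
  induction ss with
  | nil => intro k p hp; simp [lift] at hp
  | cons s ss ih =>
    intro k p hp
    rw [lift, List.mem_append] at hp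
    rcases hp with hp | hp
    · obtain ⟨x, hx, rfl⟩ := List.mem_map.1 hp
      exact ⟨0, by simp, rfl, s, by simp, hx⟩
    · obtain ⟨i, h1, h2, s', h3, h4⟩ := ih hp
      exact ⟨i + 1, by simpa using h1, by rw [h2]; congr 1; omega, s', by simp [h3], h4⟩

theorem lift_append (ss ts : List (List V)) : ∀ k, lift n k (ss ++ ts) =
    lift n k ss ++ lift n (k + ss.length) ts := by
  induction ss with
  | nil => intro k; simp [lift]
  | cons s ss ih =>
    intro k
    rw [List.cons_append, lift, lift, ih (k + 1), List.append_assoc]
    congr 3
    simp; omega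

theorem length_lift (ss : List (List V)) : ∀ k, (lift n k ss).length =
    (ss.map List.length).sum := by
  induction ss with
  | nil => intro k; simp [lift]
  | cons s ss ih => intro k; rw [lift]; simp [ih]

/-- the condition for consecutive slices -/
def Nx (s t : List V) : Prop := s.getLast? = t.head? ∧ ∀ x ∈ s, x ∈ t → s.getLast? = some x

theorem box_adj_same (G : SimpleGraph V) (x y : V) (h : Fin n) :
    (G □ pathGraph n).Adj (x, h) (y, h) ↔ G.Adj x y := by
  rw [boxProd_adj]
  simp

theorem box_adj_ne (G : SimpleGraph V) (x y : V) {h h' : Fin n} (hne : h ≠ h') :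
    (G □ pathGraph n).Adj (x, h) (y, h') ↔
      (h.val + 1 = h'.val ∨ h'.val + 1 = h.val) ∧ x = y := by
  rw [boxProd_adj, pathGraph_adj]
  simp [hne]

theorem ind_lift (G : SimpleGraph V) (ss : List (List V)) : ∀ (k : ℕ), k + ss.length ≤ n →
    (∀ s ∈ ss, s ≠ [] ∧ Ind G s) → ss.IsChain Nx → Ind (G □ pathGraph n) (lift n k ss) := by
  induction ss with
  | nil => intro k _ _ _; exact trivial
  | cons s ss ih =>
    intro k hk h1 h2
    have hk' : k + 1 + ss.length ≤ n := by
      have : (s :: ss).length = ss.length + 1 := rfl
      omega
    rw [lift]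
    apply Ind.append
    · apply Ind.map _ (h1 s (by simp)).2
      · intro u _ v _ h; exact (Prod.mk.inj h).1
      · intro u _ v _; exact box_adj_same G u v _
    · refine ih (k + 1) hk' (fun t ht => h1 t (by simp [ht])) ?_
      exact List.IsChain.tail h2
    · intro u hu v hv huv
      obtain ⟨x, hx, rfl⟩ := List.mem_map.1 hu
      obtain ⟨i, hi, h3, _⟩ := mem_lift hv
      rw [← huv] at h3
      have := ht_inj (by omega) (by omega) h3
      omega
    · intro u hu v hv
      obtain ⟨x, hx, rfl⟩ := List.mem_map.1 hu
      obtain ⟨y, hy⟩ := v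
      rcases ss with _ | ⟨t, ss⟩
      · simp [lift] at hv
      · have ht0 := (h1 t (by simp)).1
        obtain ⟨w, t', rfl⟩ := List.exists_cons_of_ne_nil ht0
        have hR : Nx s (w :: t') := by
          rw [List.isChain_cons_cons] at h2
          exact h2.1
        have hlen : (w :: t') :: ss ≠ [] := by simp
        have hll : ((w :: t') :: ss).length = ss.length + 1 := rfl
        rw [List.getLast?_map]
        have hhead : (lift n (k + 1) ((w :: t') :: ss)).head? = some (w, ht n (k + 1)) := by
          rw [lift]; rfl
        rw [hhead]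
        -- cases: the height of v
        rw [lift, List.mem_append] at hv
        rcases hv with hv | hv
        · obtain ⟨y', hy', h4⟩ := List.mem_map.1 hv
          obtain ⟨rfl, rfl⟩ := Prod.mk.inj h4
          have hne : ht n k ≠ ht n (k + 1) := by
            intro h; have := ht_inj (by omega) (by omega) h; omega
          rw [box_adj_ne G _ _ hne, ht_val (by omega), ht_val (by omega)]
          constructor
          · rintro ⟨_, rfl⟩
            have h5 := hR.2 x hx hy'
            refine ⟨by rw [h5]; rfl, ?_⟩
            have h6 := hR.1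
            rw [h5] at h6
            have : x = w := by simpa using h6
            rw [this]
          · rintro ⟨h5, h6⟩
            refine ⟨Or.inl rfl, ?_⟩
            have h7 : w = y' := by
              have := Option.some_inj.1 h6
              exact (Prod.mk.inj this).1
            obtain ⟨x', hx', h8⟩ := Option.map_eq_some_iff.1 h5
            have h9 : x' = x := (Prod.mk.inj h8).1
            have h10 := hR.1
            rw [hx'] at h10
            have : x' = w := by simpa using h10
            rw [← h9, this, h7]
        · obtain ⟨i, hi, h3, _⟩ := mem_lift hv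
          have h3' : hy = ht n (k + 1 + 1 + i) := h3
          subst h3'
          have hne : ht n k ≠ ht n (k + 1 + 1 + i) := by
            intro h; have := ht_inj (by omega) (by omega) h; omega
          rw [box_adj_ne G _ _ hne, ht_val (by omega), ht_val (by omega)]
          constructor
          · rintro ⟨h4, _⟩; omega
          · rintro ⟨_, h6⟩
            have := (Prod.mk.inj (Option.some_inj.1 h6)).2
            have := ht_inj (by omega) (by omega) this
            omega

theorem lift_disj {ss ts : List (List V)} (h : List.Forall₂ (fun s t => ∀ x ∈ s, x ∉ t) ss ts) :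
    ∀ k, k + ss.length ≤ n → ∀ p ∈ lift n k ss, p ∉ lift n k ts := by
  induction h with
  | nil => intro k _ p hp; simp [lift] at hp
  | @cons s t ss ts h1 h2 ih =>
    intro k hk p hp hq
    have hlen := h2.length_eq
    have hk1 : (s :: ss).length = ss.length + 1 := rfl
    rw [lift, List.mem_append] at hp hq
    rcases hp with hp | hp
    · obtain ⟨x, hx, rfl⟩ := List.mem_map.1 hp
      rcases hq with hq | hq
      · obtain ⟨y, hy, h3⟩ := List.mem_map.1 hq
        obtain ⟨rfl, _⟩ := Prod.mk.inj h3
        exact h1 _ hx hy
      · obtain ⟨i, hi, h3, _⟩ := mem_lift hq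
        have := ht_inj (by omega) (by omega) h3
        omega
    · rcases hq with hq | hq
      · obtain ⟨y, hy, rfl⟩ := List.mem_map.1 hq
        obtain ⟨i, hi, h3, _⟩ := mem_lift hp
        have := ht_inj (by omega) (by omega) h3
        omega
      · exact ih (k + 1) (by omega) p hp hq

end Pool.Agent.Helper18.Snake
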