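import Mathlib
import Pool.Agent.Helper18.Snake.Stack

/-!
# Pairs of disjoint induced paths, and the step to the next dimension
-/

set_option autoImplicit false
set_option linter.unusedSectionVars false

namespace Pool.Agent.Helper18.Snake

open SimpleGraph Pool.Agent.Helper19.Perco

variable {V : Type*}

/-- `z` is adjacent to exactly one vertex `a` of `A` and one vertex `b` of `B` -/
def Cor (G : SimpleGraph V) (A B : List V) (a b z : V) : Prop :=
  z ∉ A ∧ z ∉ B ∧ (∀ x ∈ A, G.Adj z x ↔ x = a) ∧ ∀ x ∈ B, G.Adj z x ↔ x = b

theorem Cor.swap {G : SimpleGraph V} {A B : List V} {a b z : V} (h : Cor G A B a b z) :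
    Cor G B A b a z := ⟨h.2.1, h.1, h.2.2.2, h.2.2.1⟩

/-- a pair of disjoint induced paths `A` (from `a` to `a'`) and `B` (from `b` to `b'`), with two
free common neighbours `c, e` of the starts and `c', e'` of the ends; `k` is the degree -/
structure Duo (G : SimpleGraph V) (k w : ℕ) (A B : List V) (a b c e a' b' c' e' : V) : Prop where
  indA : Ind G A
  indB : Ind G B
  headA : A.head? = some a
  headB : B.head? = some b
  lastA : A.getLast? = some a'
  lastB : B.getLast? = some b'
  disj : ∀ x ∈ A, x ∉ B
  hc : Cor G A B a b c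
  he : Cor G A B a b e
  hc' : Cor G A B a' b' c'
  he' : Cor G A B a' b' e'
  ce : c ≠ e
  ce' : c' ≠ e'
  cc' : c ≠ c'
  ce'' : c ≠ e'
  ec' : e ≠ c'
  ee' : e ≠ e'
  acc : ¬ G.Adj c c'
  ace : ¬ G.Adj c e'
  aec : ¬ G.Adj e c'
  aee : ¬ G.Adj e e'
  deg : ∀ x, (x ∈ A ∨ x ∈ B ∨ x = c ∨ x = e ∨ x = c' ∨ x = e') → cnt G Set.univ x = k
  wA : w ≤ A.length
  wB : w ≤ B.length

section

variable {G : SimpleGraph V} {k w : ℕ} {A B : List V} {a b c e a' b' c' e' : V}

theorem Duo.swap (h : Duo G k w A B a b c e a' b' c' e') :
    Duo G k w B A b a e c b' a' e' c' where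
  indA := h.indB
  indB := h.indA
  headA := h.headB
  headB := h.headA
  lastA := h.lastB
  lastB := h.lastA
  disj := fun x hx hx' => h.disj x hx' hx
  hc := h.he.swap
  he := h.hc.swap
  hc' := h.he'.swap
  he' := h.hc'.swap
  ce := h.ce.symm
  ce' := h.ce'.symm
  cc' := h.ee'
  ce'' := h.ec'
  ec' := h.ce''
  ee' := h.cc'
  acc := h.aee
  ace := h.aec
  aec := h.ace
  aee := h.acc
  deg := fun x hx => h.deg x (by tauto)
  wA := h.wB
  wB := h.wA

theorem Duo.aA (h : Duo G k w A B a b c e a' b' c' e') : a ∈ A := List.mem_of_mem_head? h.headA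
theorem Duo.bB (h : Duo G k w A B a b c e a' b' c' e') : b ∈ B := List.mem_of_mem_head? h.headB
theorem Duo.a'A (h : Duo G k w A B a b c e a' b' c' e') : a' ∈ A := List.mem_of_getLast? h.lastA
theorem Duo.b'B (h : Duo G k w A B a b c e a' b' c' e') : b' ∈ B := List.mem_of_getLast? h.lastB

/-- the four slices -/
def s1 (A : List V) (e c' : V) : List V := e :: (A ++ [c'])
/-- the four slices -/
def s2 (B : List V) (c c' : V) : List V := c' :: (B.reverse ++ [c])

theorem s1_head (A : List V) (e c' : V) : (s1 A e c').head? = some e := rfl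
theorem s1_last (A : List V) (e c' : V) : (s1 A e c').getLast? = some c' := by
  unfold s1
  rw [← List.cons_append, List.getLast?_append]; rfl
theorem s2_head (A : List V) (c c' : V) : (s2 A c c').head? = some c' := rfl
theorem s2_last (A : List V) (c c' : V) : (s2 A c c').getLast? = some c := by
  unfold s2
  rw [← List.cons_append, List.getLast?_append]; rfl

theorem mem_s1 {A : List V} {e c' x : V} : x ∈ s1 A e c' ↔ x = e ∨ x ∈ A ∨ x = c' := by
  unfold s1; simp
theorem mem_s2 {A : List V} {c c' x : V} : x ∈ s2 A c c' ↔ x = c' ∨ x ∈ A ∨ x = c := by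
  unfold s2; simp

theorem ind_wrap {G : SimpleGraph V} {A : List V} {a a' z z' : V} (hA : Ind G A)
    (h1 : A.head? = some a) (h2 : A.getLast? = some a') (hz : z ∉ A) (hz' : z' ∉ A)
    (hzA : ∀ x ∈ A, G.Adj z x ↔ x = a) (hzA' : ∀ x ∈ A, G.Adj z' x ↔ x = a') (hne : z ≠ z')
    (hadj : ¬ G.Adj z z') : Ind G (z :: (A ++ [z'])) := by
  have h3 : Ind G (A ++ [z']) := by
    apply Ind.append hA (ind_single G z')
    · intro u hu v hv huv
      have hv' : v = z' := by simpa using hv
      rw [huv, hv'] at hu
      exact hz' hu
    · intro u hu v hv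
      have hv' : v = z' := by simpa using hv
      rw [hv', G.adj_comm, hzA' u hu, h2]
      simp [eq_comm]
  refine ⟨?_, ?_, h3⟩
  · intro x hx
    rcases List.mem_append.1 hx with hx | hx
    · intro h; rw [h] at hz; exact hz hx
    · have hx' : x = z' := by simpa using hx
      rw [hx']; exact hne
  · intro x hx
    have hhead : (A ++ [z']).head? = some a := by
      rw [List.head?_append, h1]; rfl
    rw [hhead]
    rcases List.mem_append.1 hx with hx | hx
    · rw [hzA x hx]; simp [eq_comm]
    · have hx' : x = z' := by simpa using hx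
      rw [hx']
      constructor
      · intro h; exact absurd h hadj
      · intro h
        exfalso
        have h5 : a = z' := by simpa using h
        rw [← h5] at hz'
        exact hz' (List.mem_of_mem_head? h1)

theorem Duo.ind_s1 (h : Duo G k w A B a b c e a' b' c' e') : Ind G (s1 A e c') :=
  ind_wrap h.indA h.headA h.lastA h.he.1 h.hc'.1 h.he.2.2.1 h.hc'.2.2.1 h.ec' h.aec

theorem Duo.ind_s3 (h : Duo G k w A B a b c e a' b' c' e') : Ind G (s1 A c e') :=
  ind_wrap h.indA h.headA h.lastA h.hc.1 h.he'.1 h.hc.2.2.1 h.he'.2.2.1 h.ce'' h.ace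

theorem Duo.ind_s2 (h : Duo G k w A B a b c e a' b' c' e') : Ind G (s2 B c c') := by
  refine ind_wrap (a := b') (a' := b) h.indB.reverse ?_ ?_ ?_ ?_ ?_ ?_ h.cc'.symm ?_
  · rw [List.head?_reverse]; exact h.lastB
  · rw [List.getLast?_reverse]; exact h.headB
  · rw [List.mem_reverse]; exact h.hc'.2.1
  · rw [List.mem_reverse]; exact h.hc.2.1
  · intro x hx; exact h.hc'.2.2.2 x (List.mem_reverse.1 hx)
  · intro x hx; exact h.hc.2.2.2 x (List.mem_reverse.1 hx)
  · rw [G.adj_comm]; exact h.acc

theorem Duo.ind_s4 (h : Duo G k w A B a b c e a' b' c' e') : Ind G (s2 B e e') := by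
  refine ind_wrap (a := b') (a' := b) h.indB.reverse ?_ ?_ ?_ ?_ ?_ ?_ h.ee'.symm ?_
  · rw [List.head?_reverse]; exact h.lastB
  · rw [List.getLast?_reverse]; exact h.headB
  · rw [List.mem_reverse]; exact h.he'.2.1
  · rw [List.mem_reverse]; exact h.he.2.1
  · intro x hx; exact h.he'.2.2.2 x (List.mem_reverse.1 hx)
  · intro x hx; exact h.he.2.2.2 x (List.mem_reverse.1 hx)
  · rw [G.adj_comm]; exact h.aee

/-- the blocks -/
def blc (A B : List V) (a c e c' e' : V) : ℕ → List (List V)
  | 0 => [[e, a]]
  | q + 1 => s1 A e c' :: s2 B c c' :: s1 A c e' :: s2 B e e' :: blc A B a c e c' e' q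

/-- all slices but the constant ones at the end -/
def pre (A B : List V) (a b c e c' e' : V) (q : ℕ) : List (List V) :=
  [b] :: [b] :: [b, e] :: blc A B a c e c' e' q

theorem length_blc (A B : List V) (a c e c' e' : V) (q : ℕ) :
    (blc A B a c e c' e' q).length = 4 * q + 1 := by
  induction q with
  | zero => rfl
  | succ q ih =>
    unfold blc
    simp only [List.length_cons, ih]
    omega

theorem length_pre (A B : List V) (a b c e c' e' : V) (q : ℕ) :
    (pre A B a b c e c' e' q).length = 4 * q + 4 := by
  unfold pre
  simp only [List.length_cons, length_blc]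

theorem chain_blc (h : Duo G k w A B a b c e a' b' c' e') (m q : ℕ) :
    ∀ s, Nx s (s1 A e c') → Nx s [e, a] →
      (s :: (blc A B a c e c' e' q ++ List.replicate m [a])).IsChain Nx := by
  induction q with
  | zero =>
    intro s _ h2
    show (s :: [e, a] :: List.replicate m [a]).IsChain Nx
    rw [List.isChain_cons_cons]
    refine ⟨h2, ?_⟩
    have hNa : Nx [a] [a] := ⟨rfl, by simp⟩
    have hNe : Nx [e, a] [a] := ⟨rfl, by
      intro x _ hx'
      have : x = a := by simpa using hx'
      rw [this]; rfl⟩
    have hrep : ∀ m, ∀ t, Nx t [a] → (t :: List.replicate m [a]).IsChain Nx := by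
      intro m
      induction m with
      | zero => intro t _; exact List.isChain_singleton _
      | succ m ih =>
        intro t ht
        rw [List.replicate_succ, List.isChain_cons_cons]
        exact ⟨ht, ih [a] hNa⟩
    exact hrep m _ hNe
  | succ q ih =>
    intro s h1 _
    show (s :: s1 A e c' :: s2 B c c' :: s1 A c e' :: s2 B e e' ::
      (blc A B a c e c' e' q ++ List.replicate m [a])).IsChain Nx
    rw [List.isChain_cons_cons, List.isChain_cons_cons, List.isChain_cons_cons,
      List.isChain_cons_cons]
    refine ⟨h1, ⟨?_, ?_⟩, ⟨?_, ?_⟩, ⟨?_, ?_⟩, ih _ ⟨?_, ?_⟩ ⟨?_, ?_⟩⟩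
    · rw [s1_last, s2_head]
    · intro x hx hx'
      rw [s1_last]
      rw [mem_s1] at hx
      rw [mem_s2] at hx'
      rcases hx with rfl | hx | rfl
      · exfalso
        rcases hx' with hx' | hx' | hx'
        · exact h.ec' hx'
        · exact h.he.2.1 hx'
        · exact h.ce hx'.symm
      · exfalso
        rcases hx' with rfl | hx' | rfl
        · exact h.hc'.1 hx
        · exact h.disj x hx hx'
        · exact h.hc.1 hx
      · rfl
    · rw [s1_head, s2_last]
    · intro x hx hx'
      rw [s2_last]
      rw [mem_s2] at hx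
      rw [mem_s1] at hx'
      rcases hx' with rfl | hx' | rfl
      · rfl
      · exfalso
        rcases hx with rfl | hx | rfl
        · exact h.hc'.1 hx'
        · exact h.disj x hx' hx
        · exact h.hc.1 hx'
      · exfalso
        rcases hx with hx | hx | hx
        · exact h.ce' hx.symm
        · exact h.he'.2.1 hx
        · exact h.ce'' hx.symm
    · rw [s1_last, s2_head]
    · intro x hx hx'
      rw [s1_last]
      rw [mem_s1] at hx
      rw [mem_s2] at hx'
      rcases hx with rfl | hx | rfl
      · exfalso
        rcases hx' with hx' | hx' | hx'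
        · exact h.ce'' hx'
        · exact h.hc.2.1 hx'
        · exact h.ce hx'
      · exfalso
        rcases hx' with rfl | hx' | rfl
        · exact h.he'.1 hx
        · exact h.disj x hx hx'
        · exact h.he.1 hx
      · rfl
    · rw [s1_head, s2_last]
    · intro x hx hx'
      rw [s2_last]
      rw [mem_s2] at hx
      rw [mem_s1] at hx'
      rcases hx' with rfl | hx' | rfl
      · rfl
      · exfalso
        rcases hx with rfl | hx | rfl
        · exact h.he'.1 hx'
        · exact h.disj x hx' hx
        · exact h.he.1 hx'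
      · exfalso
        rcases hx with hx | hx | hx
        · exact h.ce' hx
        · exact h.hc'.2.1 hx
        · exact h.ec' hx.symm
    · rw [s2_last]; rfl
    · intro x hx hx'
      rw [s2_last]
      rw [mem_s2] at hx
      have hx'' : x = e ∨ x = a := by simpa using hx'
      rcases hx'' with rfl | rfl
      · rfl
      · exfalso
        rcases hx with hx | hx | hx
        · rw [← hx] at h; exact h.he'.1 h.aA
        · exact h.disj x h.aA hx
        · rw [← hx] at h; exact h.he.1 h.aA

theorem chain_pre (h : Duo G k w A B a b c e a' b' c' e') (m q : ℕ) :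
    (pre A B a b c e c' e' q ++ List.replicate m [a]).IsChain Nx := by
  show ([b] :: [b] :: [b, e] :: (blc A B a c e c' e' q ++ List.replicate m [a])).IsChain Nx
  rw [List.isChain_cons_cons, List.isChain_cons_cons]
  refine ⟨⟨rfl, by simp⟩, ⟨rfl, by simp⟩, chain_blc h m q _ ⟨?_, ?_⟩ ⟨rfl, ?_⟩⟩
  · rw [s1_head]; rfl
  · intro x hx hx'
    have hx'' : x = b ∨ x = e := by simpa using hx
    rcases hx'' with rfl | rfl
    · exfalso
      rw [mem_s1] at hx'
      rcases hx' with hx' | hx' | hx'
      · rw [← hx'] at h; exact h.he.2.1 h.bB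
      · exact h.disj x hx' h.bB
      · rw [← hx'] at h; exact h.hc'.2.1 h.bB
    · rfl
  · intro x hx hx'
    have h1 : x = b ∨ x = e := by simpa using hx
    have h2 : x = e ∨ x = a := by simpa using hx'
    rcases h1 with rfl | rfl
    · exfalso
      rcases h2 with h2 | h2
      · rw [← h2] at h; exact h.he.2.1 h.bB
      · rw [h2] at h; exact h.disj a h.aA h.bB
    · rfl

theorem ind_all (h : Duo G k w A B a b c e a' b' c' e') (m q : ℕ) :
    ∀ s ∈ pre A B a b c e c' e' q ++ List.replicate m [a], s ≠ [] ∧ Ind G s := by
  have hbl : ∀ q, ∀ s ∈ blc A B a c e c' e' q, s ≠ [] ∧ Ind G s := by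
    intro q
    induction q with
    | zero =>
      intro s hs
      have hs' : s = [e, a] := by simpa [blc] using hs
      rw [hs']
      exact ⟨by simp, ind_pair G ((h.he.2.2.1 a h.aA).2 rfl)⟩
    | succ q ih =>
      intro s hs
      unfold blc at hs
      simp only [List.mem_cons] at hs
      rcases hs with rfl | rfl | rfl | rfl | hs
      · exact ⟨by simp [s1], h.ind_s1⟩
      · exact ⟨by simp [s2], h.ind_s2⟩
      · exact ⟨by simp [s1], h.ind_s3⟩
      · exact ⟨by simp [s2], h.ind_s4⟩
      · exact ih s hs
  intro s hs
  rcases List.mem_append.1 hs with hs | hs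
  · unfold pre at hs
    simp only [List.mem_cons] at hs
    rcases hs with rfl | rfl | rfl | hs
    · exact ⟨by simp, ind_single G b⟩
    · exact ⟨by simp, ind_single G b⟩
    · exact ⟨by simp, ind_pair G ((h.he.2.2.2 b h.bB).2 rfl).symm⟩
    · exact hbl q s hs
  · have := (List.mem_replicate.1 hs).2
    rw [this]
    exact ⟨by simp, ind_single G a⟩

theorem disj_pre (h : Duo G k w A B a b c e a' b' c' e') (q : ℕ) :
    List.Forall₂ (fun s t => ∀ x ∈ s, x ∉ t) (pre A B a b c e c' e' q)
      (pre B A b a e c e' c' q) := by
  have hab : ∀ x ∈ [b], x ∉ [a] := by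
    intro x hx hx'
    have h1 : x = b := by simpa using hx
    have h2 : x = a := by simpa using hx'
    exact h.disj x (by rw [h2]; exact h.aA) (by rw [h1]; exact h.bB)
  have hbl : ∀ q, List.Forall₂ (fun s t => ∀ x ∈ s, x ∉ t) (blc A B a c e c' e' q)
      (blc B A b e c e' c' q) := by
    intro q
    induction q with
    | zero =>
      refine List.Forall₂.cons ?_ List.Forall₂.nil
      intro x hx hx'
      have h1 : x = e ∨ x = a := by simpa using hx
      have h2 : x = c ∨ x = b := by simpa using hx'
      rcases h1 with rfl | rfl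
      · rcases h2 with h2 | h2
        · exact h.ce h2.symm
        · rw [h2] at h; exact h.he.2.1 h.bB
      · rcases h2 with h2 | h2
        · rw [← h2] at h; exact h.hc.1 h.aA
        · exact h.disj x h.aA (by rw [h2]; exact h.bB)
    | succ q ih =>
      unfold blc
      refine List.Forall₂.cons ?_ (List.Forall₂.cons ?_ (List.Forall₂.cons ?_
        (List.Forall₂.cons ?_ ih)))
      · intro x hx hx'
        rw [mem_s1] at hx hx'
        rcases hx with rfl | hx | rfl
        · rcases hx' with hx' | hx' | hx'
          · exact h.ce hx'.symm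
          · exact h.he.2.1 hx'
          · exact h.ee' hx'
        · rcases hx' with rfl | hx' | rfl
          · exact h.hc.1 hx
          · exact h.disj x hx hx'
          · exact h.he'.1 hx
        · rcases hx' with hx' | hx' | hx'
          · exact h.cc' hx'.symm
          · exact h.hc'.2.1 hx'
          · exact h.ce' hx'
      · intro x hx hx'
        rw [mem_s2] at hx hx'
        rcases hx with rfl | hx | rfl
        · rcases hx' with hx' | hx' | hx'
          · exact h.ce' hx'
          · exact h.hc'.1 hx'
          · exact h.ec' hx'.symm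
        · rcases hx' with rfl | hx' | rfl
          · exact h.he'.2.1 hx
          · exact h.disj x hx' hx
          · exact h.he.2.1 hx
        · rcases hx' with hx' | hx' | hx'
          · exact h.ce'' hx'
          · exact h.hc.1 hx'
          · exact h.ce hx'
      · intro x hx hx'
        rw [mem_s1] at hx hx'
        rcases hx with rfl | hx | rfl
        · rcases hx' with hx' | hx' | hx'
          · exact h.ce hx'
          · exact h.hc.2.1 hx'
          · exact h.cc' hx'
        · rcases hx' with rfl | hx' | rfl
          · exact h.he.1 hx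
          · exact h.disj x hx hx'
          · exact h.hc'.1 hx
        · rcases hx' with hx' | hx' | hx'
          · exact h.ee' hx'.symm
          · exact h.he'.2.1 hx'
          · exact h.ce' hx'.symm
      · intro x hx hx'
        rw [mem_s2] at hx hx'
        rcases hx with rfl | hx | rfl
        · rcases hx' with hx' | hx' | hx'
          · exact h.ce' hx'.symm
          · exact h.he'.1 hx'
          · exact h.ce'' hx'.symm
        · rcases hx' with rfl | hx' | rfl
          · exact h.hc'.2.1 hx
          · exact h.disj x hx' hx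
          · exact h.hc.2.1 hx
        · rcases hx' with hx' | hx' | hx'
          · exact h.ec' hx'
          · exact h.he.1 hx'
          · exact h.ce hx'.symm
  unfold pre
  refine List.Forall₂.cons hab (List.Forall₂.cons hab (List.Forall₂.cons ?_ (hbl q)))
  intro x hx hx'
  have h1 : x = b ∨ x = e := by simpa using hx
  have h2 : x = a ∨ x = c := by simpa using hx'
  rcases h1 with rfl | rfl
  · rcases h2 with h2 | h2
    · exact h.disj x (by rw [h2]; exact h.aA) h.bB
    · rw [← h2] at h; exact h.hc.2.1 h.bB
  · rcases h2 with h2 | h2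
    · rw [h2] at h; exact h.he.1 h.aA
    · exact h.ce h2.symm

theorem mem_pre_cases (h : Duo G k w A B a b c e a' b' c' e') (q : ℕ) :
    ∀ s ∈ pre A B a b c e c' e' q, ∀ x ∈ s,
      x ∈ A ∨ x ∈ B ∨ x = c ∨ x = e ∨ x = c' ∨ x = e' := by
  have hbl : ∀ q, ∀ s ∈ blc A B a c e c' e' q, ∀ x ∈ s,
      x ∈ A ∨ x ∈ B ∨ x = c ∨ x = e ∨ x = c' ∨ x = e' := by
    intro q
    induction q with
    | zero =>
      intro s hs x hx
      have hs' : s = [e, a] := by simpa [blc] using hs
      rw [hs'] at hx
      have h1 : x = e ∨ x = a := by simpa using hx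
      rcases h1 with h1 | h1
      · tauto
      · left; rw [h1]; exact h.aA
    | succ q ih =>
      intro s hs x hx
      unfold blc at hs
      simp only [List.mem_cons] at hs
      rcases hs with rfl | rfl | rfl | rfl | hs
      · rw [mem_s1] at hx; tauto
      · rw [mem_s2] at hx; tauto
      · rw [mem_s1] at hx; tauto
      · rw [mem_s2] at hx; tauto
      · exact ih s hs x hx
  intro s hs x hx
  unfold pre at hs
  simp only [List.mem_cons] at hs
  rcases hs with rfl | rfl | rfl | hs
  · have : x = b := by simpa using hx
    rw [this]; right; left; exact h.bB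
  · have : x = b := by simpa using hx
    rw [this]; right; left; exact h.bB
  · have : x = b ∨ x = e := by simpa using hx
    rcases this with h1 | h1
    · rw [h1]; right; left; exact h.bB
    · tauto
  · exact hbl q s hs x hx

theorem sum_pre (h : Duo G k w A B a b c e a' b' c' e') (q : ℕ) :
    4 * q * w ≤ ((pre A B a b c e c' e' q).map List.length).sum := by
  have hbl : ∀ q, 4 * q * w ≤ ((blc A B a c e c' e' q).map List.length).sum := by
    intro q
    induction q with
    | zero => simp
    | succ q ih =>
      unfold blc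
      have h1 := h.wA
      have h2 := h.wB
      simp only [List.map_cons, List.sum_cons, s1, s2, List.length_cons, List.length_append,
        List.length_reverse, List.length_nil]
      have : 4 * (q + 1) * w = 4 * q * w + 4 * w := by ring
      omega
  unfold pre
  simp only [List.map_cons, List.sum_cons]
  have := hbl q
  omega

end

end Pool.Agent.Helper18.Snake
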