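import Mathlib

/-!
# Induced paths in hypercubes: Huang's eigenvector argument
-/

set_option autoImplicit false

namespace Pool.Agent.Helper18.Snake

open Finset

/-- flip one coordinate -/
def flp {m : ℕ} (i : Fin m) (v : Fin m → Bool) : Fin m → Bool := Function.update v i (!v i)

theorem flp_flp {m : ℕ} (i : Fin m) (v : Fin m → Bool) : flp i (flp i v) = v := by
  unfold flp; simp

theorem flp_inj_left {m : ℕ} {i j : Fin m} {v : Fin m → Bool} (h : flp i v = flp j v) : i = j := by
  by_contra hne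
  have := congrFun h i
  unfold flp at this
  rw [Function.update_self, Function.update_of_ne hne] at this
  simp at this

theorem flp_zero {m : ℕ} (b : Bool) (w : Fin m → Bool) :
    flp 0 (Fin.cons b w : Fin (m + 1) → Bool) = Fin.cons (!b) w := by
  unfold flp
  rw [Fin.update_cons_zero, Fin.cons_zero]

theorem flp_succ {m : ℕ} (b : Bool) (w : Fin m → Bool) (j : Fin m) :
    flp j.succ (Fin.cons b w : Fin (m + 1) → Bool) = Fin.cons b (flp j w) := by
  unfold flp
  rw [Fin.cons_succ, Fin.cons_update]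

/-- sign of a bit -/
def eps (b : Bool) : ℝ := if b then -1 else 1

theorem eps_not (b : Bool) : eps (!b) = - eps b := by cases b <;> simp [eps]
theorem eps_mul (b : Bool) : eps b * eps b = 1 := by cases b <;> simp [eps]
theorem abs_eps (b : Bool) : |eps b| = 1 := by cases b <;> simp [eps]

/-- signs -/
def sn : (m : ℕ) → Fin m → (Fin m → Bool) → ℝ
  | 0, _, _ => 1
  | m + 1, i, v => Fin.cases (motive := fun _ => ℝ) 1 (fun j => eps (v 0) * sn m j (Fin.tail v)) i

theorem sn_zero {m : ℕ} (v : Fin (m + 1) → Bool) : sn (m + 1) 0 v = 1 := rfl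
theorem sn_succ {m : ℕ} (j : Fin m) (v : Fin (m + 1) → Bool) :
    sn (m + 1) j.succ v = eps (v 0) * sn m j (Fin.tail v) := rfl

theorem abs_sn : ∀ (m : ℕ) (i : Fin m) (v : Fin m → Bool), |sn m i v| = 1
  | 0, i, _ => i.elim0
  | m + 1, i, v => by
    refine Fin.cases ?_ (fun j => ?_) i
    · rw [sn_zero, abs_one]
    · rw [sn_succ, abs_mul, abs_eps, abs_sn m, one_mul]

/-- the signed adjacency operator -/
def Hg (m : ℕ) (x : (Fin m → Bool) → ℝ) (v : Fin m → Bool) : ℝ := ∑ i, sn m i v * x (flp i v)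

theorem Hg_succ {m : ℕ} (x : (Fin (m + 1) → Bool) → ℝ) (b : Bool) (w : Fin m → Bool) :
    Hg (m + 1) x (Fin.cons b w) = x (Fin.cons (!b) w) +
      eps b * Hg m (fun u => x (Fin.cons b u)) w := by
  unfold Hg
  rw [Fin.sum_univ_succ, sn_zero, flp_zero, one_mul, Finset.mul_sum]
  congr 1
  apply Finset.sum_congr rfl
  intro j _
  rw [sn_succ, flp_succ, Fin.cons_zero, Fin.tail_cons, mul_assoc]

theorem Hg_add {m : ℕ} (x y : (Fin m → Bool) → ℝ) (v : Fin m → Bool) :
    Hg m (fun u => x u + y u) v = Hg m x v + Hg m y v := by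
  unfold Hg
  rw [← Finset.sum_add_distrib]
  apply Finset.sum_congr rfl
  intro i _; ring

theorem Hg_mul {m : ℕ} (c : ℝ) (x : (Fin m → Bool) → ℝ) (v : Fin m → Bool) :
    Hg m (fun u => c * x u) v = c * Hg m x v := by
  unfold Hg
  rw [Finset.mul_sum]
  apply Finset.sum_congr rfl
  intro i _; ring

theorem Hg_Hg : ∀ (m : ℕ) (x : (Fin m → Bool) → ℝ) (v : Fin m → Bool),
    Hg m (Hg m x) v = m * x v
  | 0, x, v => by simp [Hg]
  | m + 1, x, v => by
    obtain ⟨b, w, rfl⟩ : ∃ (b : Bool) (w : Fin m → Bool), v = Fin.cons b w :=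
      ⟨v 0, Fin.tail v, (Fin.cons_self_tail v).symm⟩
    rw [Hg_succ, Hg_succ]
    have h1 : (fun u => Hg (m + 1) x (Fin.cons b u)) = fun u => (fun u => x (Fin.cons (!b) u)) u +
        (fun u => eps b * Hg m (fun u => x (Fin.cons b u)) u) u := by
      funext u; rw [Hg_succ]
    rw [h1, Hg_add, Hg_mul, Hg_Hg m, eps_not, Bool.not_not]
    have := eps_mul b
    push_cast
    linear_combination (m : ℝ) * x (Fin.cons b w) * this

/-- extension by zero -/
noncomputable def yy {m : ℕ} (z : (Fin m → Bool) → ℝ) (u : Fin (m + 1) → Bool) : ℝ :=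
  if u 0 then 0 else z (Fin.tail u)

theorem yy_add {m : ℕ} (z z' : (Fin m → Bool) → ℝ) : yy (z + z') = fun u => yy z u + yy z' u := by
  funext u; unfold yy
  by_cases hu : u 0 = true
  · simp only [if_pos hu, add_zero]
  · simp only [if_neg hu, Pi.add_apply]

theorem yy_smul {m : ℕ} (c : ℝ) (z : (Fin m → Bool) → ℝ) : yy (c • z) = fun u => c * yy z u := by
  funext u; unfold yy
  by_cases hu : u 0 = true
  · simp only [if_pos hu, mul_zero]
  · simp only [if_neg hu, Pi.smul_apply, smul_eq_mul]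

/-- the linear map -/
noncomputable def Lm (m : ℕ) : ((Fin m → Bool) → ℝ) →ₗ[ℝ] ((Fin (m + 1) → Bool) → ℝ) where
  toFun z v := Hg (m + 1) (yy z) v + Real.sqrt (m + 1) * yy z v
  map_add' z z' := by
    funext v
    show _ = (Hg (m + 1) (yy z) v + Real.sqrt (m + 1) * yy z v) +
      (Hg (m + 1) (yy z') v + Real.sqrt (m + 1) * yy z' v)
    rw [yy_add, Hg_add]
    ring
  map_smul' c z := by
    funext v
    show _ = c * (Hg (m + 1) (yy z) v + Real.sqrt (m + 1) * yy z v)
    rw [yy_smul, Hg_mul]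
    ring

theorem Lm_eig (m : ℕ) (z : (Fin m → Bool) → ℝ) (v : Fin (m + 1) → Bool) :
    Hg (m + 1) (Lm m z) v = Real.sqrt (m + 1) * Lm m z v := by
  set y : (Fin (m + 1) → Bool) → ℝ := yy z with hy
  have h1 : Lm m z = fun v => (Hg (m + 1) y) v + (fun v => Real.sqrt (m + 1) * y v) v := rfl
  rw [h1, Hg_add, Hg_mul, Hg_Hg]
  have h2 : Real.sqrt (m + 1) * Real.sqrt (m + 1) = m + 1 := Real.mul_self_sqrt (by positivity)
  push_cast
  linear_combination -(y v) * h2

theorem Lm_true (m : ℕ) (z : (Fin m → Bool) → ℝ) (w : Fin m → Bool) :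
    Lm m z (Fin.cons true w) = z w := by
  show Hg (m + 1) (yy z) (Fin.cons true w) + Real.sqrt (m + 1) * yy z (Fin.cons true w) = z w
  rw [Hg_succ]
  simp [Hg, yy]

/-- Huang: a set with more than half of the vertices supports an eigenvector -/
theorem huang (m : ℕ) (S : Finset (Fin (m + 1) → Bool)) (hS : 2 ^ m < S.card) :
    ∃ x : (Fin (m + 1) → Bool) → ℝ, (∃ v, x v ≠ 0) ∧ (∀ v ∉ S, x v = 0) ∧
      ∀ v, Hg (m + 1) x v = Real.sqrt (m + 1) * x v := by
  let R : ((Fin (m + 1) → Bool) → ℝ) →ₗ[ℝ] ({v // v ∉ S} → ℝ) :=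
    LinearMap.funLeft ℝ ℝ (fun v : {v // v ∉ S} => v.1)
  have h1 : Module.finrank ℝ ({v // v ∉ S} → ℝ) < Module.finrank ℝ ((Fin m → Bool) → ℝ) := by
    rw [Module.finrank_fintype_fun_eq_card, Module.finrank_fintype_fun_eq_card,
      Fintype.card_subtype_compl]
    simp only [Fintype.card_fun, Fintype.card_bool, Fintype.card_fin, Fintype.card_coe, pow_succ]
    have hp : 0 < 2 ^ m := by positivity
    omega
  have h2 := LinearMap.ker_ne_bot_of_finrank_lt (f := R ∘ₗ Lm m) h1
  rw [Submodule.ne_bot_iff] at h2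
  obtain ⟨z, hz, hz0⟩ := h2
  refine ⟨Lm m z, ?_, ?_, Lm_eig m z⟩
  · by_contra hcon
    push Not at hcon
    apply hz0
    funext w
    have := hcon (Fin.cons true w)
    rw [Lm_true] at this
    exact this
  · intro v hv
    rw [LinearMap.mem_ker] at hz
    exact congrFun hz ⟨v, hv⟩

/-- an induced path in the hypercube of dimension at least four has at most half of the
vertices -/
theorem path_card (m : ℕ) (hm : 3 ≤ m) (S : Finset (Fin (m + 1) → Bool))
    (idx : (Fin (m + 1) → Bool) → ℕ) (hinj : ∀ u ∈ S, ∀ v ∈ S, idx u = idx v → u = v)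
    (hadj : ∀ v ∈ S, ∀ i, flp i v ∈ S → idx (flp i v) = idx v + 1 ∨ idx v = idx (flp i v) + 1) :
    S.card ≤ 2 ^ m := by
  by_contra hcon
  push Not at hcon
  obtain ⟨x, ⟨v0, hv0⟩, hsupp, heig⟩ := huang m S hcon
  have hv0S : v0 ∈ S := by by_contra h; exact hv0 (hsupp v0 h)
  obtain ⟨v1, hv1S, hv1⟩ := Finset.exists_max_image S (fun v => |x v|) ⟨v0, hv0S⟩
  set M := |x v1| with hM
  have hM0 : 0 < M := lt_of_lt_of_le (abs_pos.2 hv0) (hv1 v0 hv0S)
  have hle : ∀ v, |x v| ≤ M := by
    intro v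
    by_cases hv : v ∈ S
    · exact hv1 v hv
    · rw [hsupp v hv, abs_zero]; exact hM0.le
  obtain ⟨v, hv, hvmax⟩ := Finset.exists_max_image (S.filter fun v => |x v| = M) idx
    ⟨v1, Finset.mem_filter.2 ⟨hv1S, rfl⟩⟩
  rw [Finset.mem_filter] at hv
  obtain ⟨hvS, hvM⟩ := hv
  have h1 : Real.sqrt (m + 1) * M ≤ ∑ i, |x (flp i v)| := by
    have h2 := congrArg abs (heig v)
    rw [abs_mul, abs_of_nonneg (Real.sqrt_nonneg _), hvM] at h2
    rw [← h2]
    unfold Hg
    refine le_trans (Finset.abs_sum_le_sum_abs _ _) (le_of_eq ?_)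
    apply Finset.sum_congr rfl
    intro i _
    rw [abs_mul, abs_sn, one_mul]
  set Ip := (Finset.univ : Finset (Fin (m + 1))).filter
    (fun i => flp i v ∈ S ∧ idx (flp i v) = idx v + 1) with hIp
  set Im := (Finset.univ : Finset (Fin (m + 1))).filter
    (fun i => flp i v ∈ S ∧ idx v = idx (flp i v) + 1) with hIm
  have h3 : ∑ i, |x (flp i v)| ≤ ∑ i ∈ Ip, |x (flp i v)| + ∑ i ∈ Im, |x (flp i v)| := by
    have h4 : ∑ i, |x (flp i v)| = ∑ i ∈ Ip ∪ Im, |x (flp i v)| := by
      symm
      apply Finset.sum_subset (Finset.subset_univ _)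
      intro i _ hi
      have : flp i v ∉ S := by
        intro h
        apply hi
        rw [Finset.mem_union, hIp, hIm, Finset.mem_filter, Finset.mem_filter]
        rcases hadj v hvS i h with h5 | h5
        · left; exact ⟨Finset.mem_univ _, h, h5⟩
        · right; exact ⟨Finset.mem_univ _, h, h5⟩
      rw [hsupp _ this, abs_zero]
    rw [h4, ← Finset.sum_union_inter]
    have : 0 ≤ ∑ i ∈ Ip ∩ Im, |x (flp i v)| := Finset.sum_nonneg fun i _ => abs_nonneg _
    linarith
  have hIp1 : ∑ i ∈ Ip, |x (flp i v)| < M := by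
    rcases Finset.eq_empty_or_nonempty Ip with h | ⟨i, hi⟩
    · rw [h, Finset.sum_empty]; exact hM0
    · have h5 : Ip = {i} := by
        ext j
        rw [Finset.mem_singleton]
        constructor
        · intro hj
          rw [hIp, Finset.mem_filter] at hi hj
          apply flp_inj_left (v := v)
          apply hinj _ hj.2.1 _ hi.2.1
          rw [hj.2.2, hi.2.2]
        · rintro rfl; exact hi
      rw [h5, Finset.sum_singleton]
      refine lt_of_le_of_ne (hle _) ?_
      intro h6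
      rw [hIp, Finset.mem_filter] at hi
      have := hvmax (flp i v) (Finset.mem_filter.2 ⟨hi.2.1, h6⟩)
      omega
  have hIm1 : ∑ i ∈ Im, |x (flp i v)| ≤ M := by
    rcases Finset.eq_empty_or_nonempty Im with h | ⟨i, hi⟩
    · rw [h, Finset.sum_empty]; exact hM0.le
    · have h5 : Im = {i} := by
        ext j
        rw [Finset.mem_singleton]
        constructor
        · intro hj
          rw [hIm, Finset.mem_filter] at hi hj
          apply flp_inj_left (v := v)
          apply hinj _ hj.2.1 _ hi.2.1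
          omega
        · rintro rfl; exact hi
      rw [h5, Finset.sum_singleton]
      exact hle _
  have h7 : (2 : ℝ) ≤ Real.sqrt (m + 1) := by
    apply Real.le_sqrt_of_sq_le
    have : (3 : ℝ) ≤ m := by exact_mod_cast hm
    linarith
  nlinarith

end Pool.Agent.Helper18.Snake
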