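import Mathlib
import Pool.Agent.Helper18.Snake.Duo

/-!
# The double spiral in the plane
-/

set_option autoImplicit false

namespace Pool.Agent.Helper18.Snake

open SimpleGraph Pool.Agent.Helper19.Perco

/-- the square lattice -/
def G2 : SimpleGraph (ℤ × ℤ) where
  Adj p q := (p.1 = q.1 ∧ (p.2 + 1 = q.2 ∨ q.2 + 1 = p.2)) ∨
    (p.2 = q.2 ∧ (p.1 + 1 = q.1 ∨ q.1 + 1 = p.1))
  symm := ⟨by rintro p q (⟨h1, h2⟩ | ⟨h1, h2⟩)
              · left; exact ⟨h1.symm, h2.symm⟩
              · right; exact ⟨h1.symm, h2.symm⟩⟩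
  loopless := ⟨by rintro p (⟨_, h⟩ | ⟨_, h⟩) <;> omega⟩

theorem G2_adj {p q : ℤ × ℤ} : G2.Adj p q ↔ (p.1 = q.1 ∧ (p.2 + 1 = q.2 ∨ q.2 + 1 = p.2)) ∨
    (p.2 = q.2 ∧ (p.1 + 1 = q.1 ∨ q.1 + 1 = p.1)) := Iff.rfl

instance : DecidableRel G2.Adj := fun p q => by
  rw [G2_adj]; infer_instance

/-- point reflection -/
def sg (a b : ℕ) (p : ℤ × ℤ) : ℤ × ℤ := (a + 1 - p.1, b + 1 - p.2)

theorem sg_sg (a b : ℕ) (p : ℤ × ℤ) : sg a b (sg a b p) = p := by
  unfold sg; ext <;> simp

theorem sg_inj {a b : ℕ} {p q : ℤ × ℤ} (h : sg a b p = sg a b q) : p = q := by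
  rw [← sg_sg a b p, h, sg_sg]

theorem sg_adj (a b : ℕ) (p q : ℤ × ℤ) : G2.Adj (sg a b p) (sg a b q) ↔ G2.Adj p q := by
  rw [G2_adj, G2_adj]; unfold sg; simp only
  constructor
  · rintro (⟨h1, h2⟩ | ⟨h1, h2⟩)
    · left; omega
    · right; omega
  · rintro (⟨h1, h2⟩ | ⟨h1, h2⟩)
    · left; omega
    · right; omega

/-- quarter turn -/
def rho (a : ℕ) (p : ℤ × ℤ) : ℤ × ℤ := (p.2, a + 2 - p.1)

theorem rho_inj {a : ℕ} {p q : ℤ × ℤ} (h : rho a p = rho a q) : p = q := by
  unfold rho at h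
  obtain ⟨h1, h2⟩ := Prod.mk.inj h
  ext
  · omega
  · exact h1

theorem rho_adj (a : ℕ) (p q : ℤ × ℤ) : G2.Adj (rho a p) (rho a q) ↔ G2.Adj p q := by
  rw [G2_adj, G2_adj]; unfold rho; simp only
  constructor
  · rintro (⟨h1, h2⟩ | ⟨h1, h2⟩)
    · right; omega
    · left; omega
  · rintro (⟨h1, h2⟩ | ⟨h1, h2⟩)
    · right; omega
    · left; omega

/-- half of a double spiral, the other half is the reflection -/
structure St (P : List (ℤ × ℤ)) (a b : ℕ) (s c : ℤ × ℤ) : Prop where
  ind : Ind G2 P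
  head : P.head? = some (0, 0)
  last : P.getLast? = some s
  box : ∀ p ∈ P, 0 ≤ p.1 ∧ p.1 ≤ a ∧ 0 ≤ p.2 ∧ p.2 ≤ b ∧ (p.2 ≤ 1 → p.1 = 0)
  disj : ∀ p ∈ P, sg a b p ∉ P
  cbox : 2 ≤ c.1 ∧ c.1 + 1 ≤ a ∧ 2 ≤ c.2 ∧ c.2 + 1 ≤ b
  cor : ∀ z, (z = c ∨ z = sg a b c) → z ∉ P ∧ ∀ p ∈ P, G2.Adj z p ↔ p = s
  ce : c ≠ sg a b c
  ab : a ≤ b
  ba : b ≤ a + 2
  size : a * b ≤ 2 * P.length + 12

/-- a horizontal arm -/
def arm : ℕ → List (ℤ × ℤ)
  | 0 => []
  | m + 1 => ((m : ℤ) + 1, 0) :: arm m

theorem length_arm (m : ℕ) : (arm m).length = m := by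
  induction m with
  | zero => rfl
  | succ m ih => rw [arm, List.length_cons, ih]

theorem mem_arm {m : ℕ} {p : ℤ × ℤ} : p ∈ arm m ↔ 1 ≤ p.1 ∧ p.1 ≤ m ∧ p.2 = 0 := by
  induction m with
  | zero =>
    constructor
    · intro h; exact absurd h List.not_mem_nil
    · intro h; exfalso; push_cast at h; omega
  | succ m ih =>
    rw [arm, List.mem_cons, ih]
    constructor
    · rintro (rfl | ⟨h1, h2, h3⟩)
      · exact ⟨by show (1 : ℤ) ≤ (m : ℤ) + 1; omega,
          by show (m : ℤ) + 1 ≤ ((m + 1 : ℕ) : ℤ); push_cast; omega, rfl⟩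
      · push_cast; omega
    · rintro ⟨h1, h2, h3⟩
      rcases eq_or_ne p.1 (m + 1) with h | h
      · left; ext <;> simp [h, h3]
      · right; push_cast at h2; omega

theorem ind_arm {P : List (ℤ × ℤ)} (hP : Ind G2 P) (h0 : P.head? = some (0, 0))
    (hb : ∀ p ∈ P, 0 ≤ p.2 ∧ (p.2 ≤ 1 → p.1 = 0)) (m : ℕ) :
    Ind G2 (arm m ++ P) ∧ (arm m ++ P).head? = some ((m : ℤ), 0) := by
  induction m with
  | zero => exact ⟨hP, by simpa [arm] using h0⟩
  | succ m ih =>
    refine ⟨⟨?_, ?_, ih.1⟩, by rw [arm]; simp⟩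
    · intro z hz hzz
      rw [← hzz] at hz
      rcases List.mem_append.1 hz with hz | hz
      · rw [mem_arm] at hz
        simp only at hz; omega
      · have := hb _ hz
        simp only at this; omega
    · intro z hz
      show _ ↔ (arm m ++ P).head? = some z
      rw [show (arm m ++ P).head? = some ((m : ℤ), 0) from ih.2, Option.some_inj, G2_adj]
      obtain ⟨x, y⟩ := z
      simp only [Prod.mk.injEq]
      rcases List.mem_append.1 hz with hz | hz
      · rw [mem_arm] at hz
        simp only at hz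
        omega
      · have := hb _ hz
        simp only at this
        omega

theorem St.step {P : List (ℤ × ℤ)} {a b : ℕ} {s c : ℤ × ℤ} (h : St P a b s c) :
    St ((arm (a + 2) ++ P).map (rho a)) b (a + 2) (rho a s) (rho a c) := by
  have hPne : P ≠ [] := by
    intro h'; have := h.head; rw [h'] at this; simp at this
  obtain ⟨hI, hH⟩ := ind_arm h.ind h.head (fun p hp => ⟨(h.box p hp).2.2.1, (h.box p hp).2.2.2.2⟩)
    (a + 2)
  have hmem : ∀ (l : List (ℤ × ℤ)) x, rho a x ∈ l.map (rho a) ↔ x ∈ l := by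
    intro l x
    rw [List.mem_map]
    constructor
    · rintro ⟨y, hy, hxy⟩; rw [← rho_inj hxy]; exact hy
    · intro hx; exact ⟨x, hx, rfl⟩
  have hsg : ∀ p, sg b (a + 2) (rho a p) = rho a (sg a b p) := by
    intro p; unfold sg rho; ext
    · simp
    · push_cast; ring
  have hab := h.ab
  have hba := h.ba
  refine
    { ind := hI.map _ (fun u _ v _ => rho_inj) (fun u _ v _ => rho_adj a u v)
      head := ?_, last := ?_, box := ?_, disj := ?_, cbox := ?_, cor := ?_, ce := ?_
      ab := by omega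
      ba := by omega
      size := ?_ }
  · rw [List.head?_map, hH]
    simp [rho]
  · rw [List.getLast?_map, List.getLast?_append, h.last]; rfl
  · intro q hq
    obtain ⟨p, hp, rfl⟩ := List.mem_map.1 hq
    rcases List.mem_append.1 hp with hp | hp
    · rw [mem_arm] at hp
      unfold rho; push_cast at hp ⊢; omega
    · have := h.box p hp
      unfold rho; push_cast
      refine ⟨by omega, by omega, by omega, by omega, ?_⟩
      intro h1
      exfalso; omega
  · intro q hq
    obtain ⟨p, hp, rfl⟩ := List.mem_map.1 hq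
    rw [hsg, hmem]
    intro hq'
    rcases List.mem_append.1 hp with hp | hp
    · rw [mem_arm] at hp
      rcases List.mem_append.1 hq' with hq' | hq'
      · rw [mem_arm] at hq'
        unfold sg at hq'; simp only at hq'; omega
      · have := h.box _ hq'
        unfold sg at this; simp only at this; omega
    · rcases List.mem_append.1 hq' with hq' | hq'
      · rw [mem_arm] at hq'
        have := h.box _ hp
        unfold sg at hq'; simp only at hq'; omega
      · exact h.disj p hp hq'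
  · have := h.cbox
    unfold rho; push_cast; omega
  · intro z hz
    have hz' : ∃ y, z = rho a y ∧ (y = c ∨ y = sg a b c) := by
      rcases hz with rfl | rfl
      · exact ⟨c, rfl, Or.inl rfl⟩
      · exact ⟨sg a b c, hsg c, Or.inr rfl⟩
    obtain ⟨y, rfl, hy⟩ := hz'
    have hybox : 2 ≤ y.1 ∧ 2 ≤ y.2 := by
      have := h.cbox
      rcases hy with rfl | rfl
      · omega
      · unfold sg; simp only; omega
    obtain ⟨h1, h2⟩ := h.cor y hy
    constructor
    · rw [hmem, List.mem_append, mem_arm]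
      rintro (h3 | h3)
      · omega
      · exact h1 h3
    · intro q hq
      obtain ⟨p, hp, rfl⟩ := List.mem_map.1 hq
      rw [rho_adj]
      rcases List.mem_append.1 hp with hp | hp
      · rw [mem_arm] at hp
        constructor
        · intro h3; rw [G2_adj] at h3; omega
        · intro h3
          exfalso
          have h4 := rho_inj h3
          have hs : s ∈ P := List.mem_of_getLast? h.last
          have := h.box s hs
          rw [h4] at hp
          omega
      · rw [h2 p hp]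
        exact ⟨fun h3 => by rw [h3], fun h3 => rho_inj h3⟩
  · rw [hsg]
    intro h'; exact h.ce (rho_inj h')
  · rw [List.length_map, List.length_append, length_arm]
    have := h.size
    nlinarith

theorem st_base : St [(0, 0), (0, 1), (0, 2), (0, 3), (1, 3), (2, 3)] 4 6 (2, 3) (3, 3) where
  ind := by simp [Ind, G2_adj]
  head := rfl
  last := rfl
  box := by simp
  disj := by simp [sg]
  cbox := by norm_num
  cor := by
    rintro z (rfl | rfl)
    · simp [G2_adj]
    · simp [sg, G2_adj]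
  ce := by simp [sg]
  ab := by norm_num
  ba := by norm_num
  size := by simp

theorem st_exists (k : ℕ) : ∃ P a b s c, St P a b s c ∧ a + b = 10 + 2 * k := by
  induction k with
  | zero => exact ⟨_, _, _, _, _, st_base, rfl⟩
  | succ k ih =>
    obtain ⟨P, a, b, s, c, h, hk⟩ := ih
    exact ⟨_, _, _, _, _, h.step, by omega⟩

/-- a vertical arm -/
def vl (X : ℤ) : ℕ → List (ℤ × ℤ)
  | 0 => []
  | m + 1 => (X, (m : ℤ) + 1) :: vl X m

theorem mem_vl {X : ℤ} {m : ℕ} {p : ℤ × ℤ} : p ∈ vl X m ↔ p.1 = X ∧ 1 ≤ p.2 ∧ p.2 ≤ m := by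
  induction m with
  | zero =>
    constructor
    · intro h; exact absurd h List.not_mem_nil
    · intro h; exfalso; push_cast at h; omega
  | succ m ih =>
    rw [vl, List.mem_cons, ih]
    constructor
    · rintro (rfl | ⟨h1, h2, h3⟩)
      · push_cast; omega
      · push_cast; omega
    · rintro ⟨h1, h2, h3⟩
      rcases eq_or_ne p.2 (m + 1) with h | h
      · left; ext <;> simp [h, h1]
      · right; push_cast at h3; omega

/-- the first path -/
def pA (P : List (ℤ × ℤ)) (a b : ℕ) : List (ℤ × ℤ) := vl (a + 4) (b + 3) ++ (arm (a + 4) ++ P)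

/-- the second path -/
def pB (P : List (ℤ × ℤ)) (a b : ℕ) : List (ℤ × ℤ) :=
  [((a : ℤ) + 3, (b : ℤ) + 4), ((a : ℤ) + 2, (b : ℤ) + 4), ((a : ℤ) + 1, (b : ℤ) + 4),
    ((a : ℤ) + 1, (b : ℤ) + 3), ((a : ℤ) + 1, (b : ℤ) + 2)] ++ P.map (sg a b)

theorem mem_pA {P : List (ℤ × ℤ)} {a b : ℕ} {p : ℤ × ℤ} : p ∈ pA P a b ↔
    (p.1 = a + 4 ∧ 0 ≤ p.2 ∧ p.2 ≤ b + 3) ∨ (1 ≤ p.1 ∧ p.1 ≤ a + 4 ∧ p.2 = 0) ∨ p ∈ P := by
  unfold pA
  rw [List.mem_append, List.mem_append, mem_vl, mem_arm]
  push_cast
  constructor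
  · rintro (h | h | h)
    · left; omega
    · right; left; omega
    · right; right; exact h
  · rintro (h | h | h)
    · by_cases h0 : p.2 = 0
      · right; left; omega
      · left; omega
    · right; left; omega
    · right; right; exact h

theorem mem_pB {P : List (ℤ × ℤ)} {a b : ℕ} {p : ℤ × ℤ} : p ∈ pB P a b ↔
    (p = ((a : ℤ) + 3, (b : ℤ) + 4) ∨ p = ((a : ℤ) + 2, (b : ℤ) + 4) ∨
      p = ((a : ℤ) + 1, (b : ℤ) + 4) ∨ p = ((a : ℤ) + 1, (b : ℤ) + 3) ∨
      p = ((a : ℤ) + 1, (b : ℤ) + 2)) ∨ sg a b p ∈ P := by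
  unfold pB
  rw [List.mem_append, List.mem_map]
  have : (∃ q ∈ P, sg a b q = p) ↔ sg a b p ∈ P := by
    constructor
    · rintro ⟨q, hq, rfl⟩; rw [sg_sg]; exact hq
    · intro h; exact ⟨_, h, sg_sg a b p⟩
  rw [this]
  simp only [List.mem_cons, List.not_mem_nil, or_false]

theorem St.indA {P : List (ℤ × ℤ)} {a b : ℕ} {s c : ℤ × ℤ} (h : St P a b s c) :
    Ind G2 (pA P a b) := by
  obtain ⟨hI, hH⟩ := ind_arm h.ind h.head (fun p hp => ⟨(h.box p hp).2.2.1, (h.box p hp).2.2.2.2⟩)
    (a + 4)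
  have key : ∀ m : ℕ, Ind G2 (vl (a + 4) m ++ (arm (a + 4) ++ P)) ∧
      (vl (a + 4) m ++ (arm (a + 4) ++ P)).head? = some ((a : ℤ) + 4, (m : ℤ)) := by
    intro m
    induction m with
    | zero =>
      refine ⟨hI, ?_⟩
      rw [vl, List.nil_append, hH]
      push_cast; rfl
    | succ m ih =>
      refine ⟨⟨?_, ?_, ih.1⟩, by rw [vl]; simp⟩
      · intro z hz hzz
        rw [← hzz] at hz
        rcases List.mem_append.1 hz with hz | hz
        · rw [mem_vl] at hz
          simp only at hz; omega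
        · rcases List.mem_append.1 hz with hz | hz
          · rw [mem_arm] at hz
            simp only at hz; omega
          · have := h.box _ hz
            simp only at this; omega
      · intro z hz
        show _ ↔ (vl (a + 4) m ++ (arm (a + 4) ++ P)).head? = some z
        rw [ih.2, Option.some_inj, G2_adj]
        obtain ⟨x, y⟩ := z
        simp only [Prod.mk.injEq]
        rcases List.mem_append.1 hz with hz | hz
        · rw [mem_vl] at hz
          simp only at hz
          omega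
        · rcases List.mem_append.1 hz with hz | hz
          · rw [mem_arm] at hz
            simp only at hz
            push_cast at hz
            omega
          · have := h.box _ hz
            simp only at this
            omega
  exact (key (b + 3)).1

theorem St.indB {P : List (ℤ × ℤ)} {a b : ℕ} {s c : ℤ × ℤ} (h : St P a b s c) :
    Ind G2 (pB P a b) := by
  have h1 : Ind G2 (P.map (sg a b)) :=
    h.ind.map _ (fun u _ v _ => sg_inj) (fun u _ v _ => sg_adj a b u v)
  apply Ind.append _ h1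
  · intro u hu v hv huv
    obtain ⟨p, hp, rfl⟩ := List.mem_map.1 hv
    have := h.box p hp
    rw [huv] at hu
    simp only [List.mem_cons, List.not_mem_nil, or_false, sg, Prod.mk.injEq] at hu
    omega
  · intro u hu v hv
    obtain ⟨p, hp, rfl⟩ := List.mem_map.1 hv
    have := h.box p hp
    rw [List.head?_map, h.head]
    simp only [List.mem_cons, List.not_mem_nil, or_false] at hu
    have e1 : some (sg a b (0, 0)) = some (sg a b p) ↔ p = (0, 0) := by
      rw [Option.some_inj]
      exact ⟨fun h' => (sg_inj h').symm, fun h' => by rw [h']⟩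
    show _ ↔ _ ∧ some (sg a b (0, 0)) = some (sg a b p)
    rw [e1, G2_adj]
    obtain ⟨x, y⟩ := p
    simp only at this
    have e2 : ([((a : ℤ) + 3, (b : ℤ) + 4), ((a : ℤ) + 2, (b : ℤ) + 4), ((a : ℤ) + 1, (b : ℤ) + 4),
        ((a : ℤ) + 1, (b : ℤ) + 3), ((a : ℤ) + 1, (b : ℤ) + 2)] : List (ℤ × ℤ)).getLast? =
        some ((a : ℤ) + 1, (b : ℤ) + 2) := rfl
    rw [e2]
    simp only [sg, Option.some_inj, Prod.mk.injEq]
    rcases hu with rfl | rfl | rfl | rfl | rfl
    all_goals
      simp only [Prod.mk.injEq, true_and]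
      omega
  · refine ⟨?_, ?_, ?_, ?_, ?_, ?_, ?_, ?_, ?_, ?_, trivial⟩
    all_goals
      intro z hz
      simp only [List.mem_cons, List.not_mem_nil, or_false] at hz
    · rcases hz with rfl | rfl | rfl | rfl <;> simp [Prod.mk.injEq]
    · rcases hz with rfl | rfl | rfl | rfl <;> simp [Prod.mk.injEq, G2_adj] <;> omega
    · rcases hz with rfl | rfl | rfl <;> simp [Prod.mk.injEq]
    · rcases hz with rfl | rfl | rfl <;> simp [Prod.mk.injEq, G2_adj] <;> omega
    · rcases hz with rfl | rfl <;> simp [Prod.mk.injEq]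
    · rcases hz with rfl | rfl <;> simp [Prod.mk.injEq, G2_adj] <;> omega
    · rcases hz with rfl <;> simp [Prod.mk.injEq]
    · rcases hz with rfl; simp [G2_adj]; omega

theorem St.sP {P : List (ℤ × ℤ)} {a b : ℕ} {s c : ℤ × ℤ} (h : St P a b s c) : s ∈ P :=
  List.mem_of_getLast? h.last

theorem pA_head (P : List (ℤ × ℤ)) (a b : ℕ) :
    (pA P a b).head? = some ((a : ℤ) + 4, (b : ℤ) + 3) := by
  unfold pA
  rw [vl, List.cons_append, List.head?_cons]
  congr 2

theorem pB_head (P : List (ℤ × ℤ)) (a b : ℕ) :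
    (pB P a b).head? = some ((a : ℤ) + 3, (b : ℤ) + 4) := rfl

theorem St.pA_last {P : List (ℤ × ℤ)} {a b : ℕ} {s c : ℤ × ℤ} (h : St P a b s c) :
    (pA P a b).getLast? = some s := by
  unfold pA
  rw [List.getLast?_append, List.getLast?_append, h.last]; rfl

theorem St.pB_last {P : List (ℤ × ℤ)} {a b : ℕ} {s c : ℤ × ℤ} (h : St P a b s c) :
    (pB P a b).getLast? = some (sg a b s) := by
  unfold pB
  rw [List.getLast?_append, List.getLast?_map, h.last]; rfl

theorem St.disjAB {P : List (ℤ × ℤ)} {a b : ℕ} {s c : ℤ × ℤ} (h : St P a b s c) :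
    ∀ x ∈ pA P a b, x ∉ pB P a b := by
  intro x hx hx'
  rw [mem_pA] at hx
  rw [mem_pB] at hx'
  obtain ⟨x, y⟩ := x
  simp only [Prod.mk.injEq] at hx hx'
  rcases hx with hx | hx | hx
  · rcases hx' with hx' | hx'
    · omega
    · have := h.box _ hx'
      unfold sg at this; simp only at this; omega
  · rcases hx' with hx' | hx'
    · omega
    · have := h.box _ hx'
      unfold sg at this; simp only at this; omega
  · have h1 := h.box _ hx
    simp only at h1
    rcases hx' with hx' | hx'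
    · omega
    · exact h.disj _ hx hx'

theorem St.corO {P : List (ℤ × ℤ)} {a b : ℕ} {s c : ℤ × ℤ} (h : St P a b s c) {z : ℤ × ℤ}
    (hz : z = ((a : ℤ) + 3, (b : ℤ) + 3) ∨ z = ((a : ℤ) + 4, (b : ℤ) + 4)) :
    Cor G2 (pA P a b) (pB P a b) ((a : ℤ) + 4, (b : ℤ) + 3) ((a : ℤ) + 3, (b : ℤ) + 4) z := by
  refine ⟨?_, ?_, ?_, ?_⟩
  · rw [mem_pA]
    rintro (h1 | h1 | h1)
    · rcases hz with rfl | rfl <;> simp only at h1 <;> omega
    · rcases hz with rfl | rfl <;> simp only at h1 <;> omega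
    · have := h.box _ h1
      rcases hz with rfl | rfl <;> simp only at this <;> omega
  · rw [mem_pB]
    rintro (h1 | h1)
    · rcases hz with rfl | rfl <;> simp only [Prod.mk.injEq] at h1 <;> omega
    · have := h.box _ h1
      unfold sg at this
      rcases hz with rfl | rfl <;> simp only at this <;> omega
  · rintro ⟨x, y⟩ hx
    rw [mem_pA] at hx
    rw [G2_adj]
    simp only [Prod.mk.injEq] at hx ⊢
    rcases hx with hx | hx | hx
    · rcases hz with rfl | rfl <;> simp only <;> omega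
    · rcases hz with rfl | rfl <;> simp only <;> omega
    · have := h.box _ hx
      simp only at this
      rcases hz with rfl | rfl <;> simp only <;> omega
  · rintro ⟨x, y⟩ hx
    rw [mem_pB] at hx
    rw [G2_adj]
    simp only [Prod.mk.injEq] at hx ⊢
    rcases hx with hx | hx
    · rcases hz with rfl | rfl <;> simp only <;> omega
    · have := h.box _ hx
      unfold sg at this
      simp only at this
      rcases hz with rfl | rfl <;> simp only <;> omega

theorem St.corI {P : List (ℤ × ℤ)} {a b : ℕ} {s c : ℤ × ℤ} (h : St P a b s c) {z : ℤ × ℤ}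
    (hz : z = c ∨ z = sg a b c) :
    Cor G2 (pA P a b) (pB P a b) s (sg a b s) z := by
  have hzb : 2 ≤ z.1 ∧ z.1 + 1 ≤ a ∧ 2 ≤ z.2 ∧ z.2 + 1 ≤ b := by
    have := h.cbox
    rcases hz with rfl | rfl
    · exact this
    · unfold sg; simp only; omega
  have hz' : sg a b z = c ∨ sg a b z = sg a b c := by
    rcases hz with rfl | rfl
    · right; rfl
    · left; rw [sg_sg]
  obtain ⟨h1, h2⟩ := h.cor z hz
  obtain ⟨h3, h4⟩ := h.cor _ hz'
  have hs := h.box s h.sP
  refine ⟨?_, ?_, ?_, ?_⟩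
  · rw [mem_pA]
    rintro (h5 | h5 | h5)
    · omega
    · omega
    · exact h1 h5
  · rw [mem_pB]
    rintro (h5 | h5)
    · obtain ⟨z1, z2⟩ := z
      simp only [Prod.mk.injEq] at h5 hzb
      omega
    · exact h3 h5
  · intro x hx
    rw [mem_pA] at hx
    rcases hx with hx | hx | hx
    · constructor
      · intro h5; rw [G2_adj] at h5; omega
      · intro h5; rw [h5] at hx; omega
    · constructor
      · intro h5; rw [G2_adj] at h5; omega
      · intro h5; rw [h5] at hx; omega
    · exact h2 x hx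
  · intro x hx
    rw [mem_pB] at hx
    rcases hx with hx | hx
    · have hxb : (b : ℤ) + 2 ≤ x.2 ∧ (a : ℤ) + 1 ≤ x.1 := by
        rcases hx with rfl | rfl | rfl | rfl | rfl <;> simp only <;> omega
      constructor
      · intro h5; rw [G2_adj] at h5; omega
      · intro h5
        rw [h5] at hxb
        unfold sg at hxb; simp only at hxb; omega
    · have h5 := h4 _ hx
      rw [sg_adj] at h5
      rw [h5]
      constructor
      · intro h6; rw [← h6, sg_sg]
      · intro h6; rw [h6, sg_sg]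

theorem St.lenA {P : List (ℤ × ℤ)} {a b : ℕ} {s c : ℤ × ℤ} (_h : St P a b s c) :
    P.length ≤ (pA P a b).length := by
  unfold pA; rw [List.length_append, List.length_append]; omega

theorem St.lenB {P : List (ℤ × ℤ)} {a b : ℕ} {s c : ℤ × ℤ} (_h : St P a b s c) :
    P.length ≤ (pB P a b).length := by
  unfold pB; rw [List.length_append, List.length_map]; omega

theorem St.boxA {P : List (ℤ × ℤ)} {a b : ℕ} {s c : ℤ × ℤ} (h : St P a b s c) :
    ∀ p ∈ pA P a b, 0 ≤ p.1 ∧ p.1 ≤ a + 4 ∧ 0 ≤ p.2 ∧ p.2 ≤ b + 4 := by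
  intro p hp
  rw [mem_pA] at hp
  rcases hp with hp | hp | hp
  · omega
  · omega
  · have := h.box _ hp; omega

theorem St.boxB {P : List (ℤ × ℤ)} {a b : ℕ} {s c : ℤ × ℤ} (h : St P a b s c) :
    ∀ p ∈ pB P a b, 0 ≤ p.1 ∧ p.1 ≤ a + 4 ∧ 0 ≤ p.2 ∧ p.2 ≤ b + 4 := by
  intro p hp
  rw [mem_pB] at hp
  rcases hp with hp | hp
  · rcases hp with rfl | rfl | rfl | rfl | rfl <;> simp only <;> omega
  · have := h.box _ hp
    unfold sg at this
    simp only at this
    omega

end Pool.Agent.Helper18.Snake
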