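import Mathlib
import Pool.Agent.Helper18.Snake.Duo
import Pool.Agent.Helper19.PercFinal

/-!
# The step to the next dimension, and the final path
-/

set_option autoImplicit false
set_option linter.unusedSectionVars false

namespace Pool.Agent.Helper18.Snake

open SimpleGraph Pool.Agent.Helper19.Perco

variable {V : Type*} {n : ℕ} [NeZero n]

theorem cnt_univ_box [Finite V] (G : SimpleGraph V) (x : V) {i : ℕ} (h1 : 1 ≤ i) (h2 : i < n) :
    cnt (G □ pathGraph n) Set.univ (x, ht n i) =
      cnt G Set.univ x + (if i + 1 < n then 2 else 1) := by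
  have h := cnt_lay G n (fun _ => Set.univ) x (ht n i)
  have h3 : (lay n (fun _ => Set.univ) : Set (V × Fin n)) = Set.univ := by
    ext p; exact ⟨fun _ => trivial, fun _ => trivial⟩
  rw [h3, ht_val h2] at h
  rw [h]
  have h4 : 0 < i := h1
  simp only [Set.mem_univ, and_true, h4, if_true]
  split_ifs <;> rfl

theorem cor_low (G : SimpleGraph V) {x z : V} (hxz : G.Adj z x) (rest : List (List V))
    (hk : 1 + (rest.length + 2) ≤ n) :
    (z, ht n 1) ∉ lift n 1 ([x] :: [x] :: rest) ∧ ∀ p ∈ lift n 1 ([x] :: [x] :: rest),
      ((G □ pathGraph n).Adj (z, ht n 1) p ↔ p = (x, ht n 1)) := by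
  have hcase : ∀ p ∈ lift n 1 ([x] :: [x] :: rest), p = (x, ht n 1) ∨ p = (x, ht n 2) ∨
      ∃ i, i < rest.length ∧ p.2 = ht n (3 + i) := by
    intro p hp
    rw [lift, lift] at hp
    simp only [List.map_cons, List.map_nil, List.cons_append, List.nil_append,
      List.mem_cons] at hp
    rcases hp with hp | hp | hp
    · left; exact hp
    · right; left; exact hp
    · obtain ⟨i, hi, h3, _⟩ := mem_lift hp
      exact Or.inr (Or.inr ⟨i, hi, h3⟩)
  constructor
  · intro hz
    rcases hcase _ hz with h | h | ⟨i, hi, h⟩
    · have := (Prod.mk.inj h).1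
      rw [this] at hxz; exact G.irrefl hxz
    · have := ht_inj (by omega) (by omega) (Prod.mk.inj h).2
      omega
    · have := ht_inj (by omega) (by omega) h
      omega
  · intro p hp
    rcases hcase p hp with rfl | rfl | ⟨i, hi, h⟩
    · rw [box_adj_same]
      simp [hxz]
    · have hne : ht n 1 ≠ ht n 2 := by
        intro h; have := ht_inj (by omega) (by omega) h; omega
      rw [box_adj_ne G _ _ hne]
      constructor
      · rintro ⟨_, h⟩; rw [h] at hxz; exact absurd hxz G.irrefl
      · intro h
        exact absurd (Prod.mk.inj h).2 (fun h' => hne h'.symm)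
    · obtain ⟨y, hy⟩ := p
      have h' : hy = ht n (3 + i) := h
      subst h'
      have hne : ht n 1 ≠ ht n (3 + i) := by
        intro h; have := ht_inj (by omega) (by omega) h; omega
      rw [box_adj_ne G _ _ hne, ht_val (by omega), ht_val (by omega)]
      constructor
      · rintro ⟨h, _⟩; omega
      · intro h
        exact absurd (Prod.mk.inj h).2 (fun h' => hne h'.symm)

theorem cor_high (G : SimpleGraph V) {x z : V} (hxz : G.Adj z x) (front : List (List V)) {k : ℕ}
    (hk : k + front.length + 1 < n) :
    (z, ht n (k + front.length + 1)) ∉ lift n k (front ++ [[x], [x]]) ∧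
      ∀ p ∈ lift n k (front ++ [[x], [x]]),
      ((G □ pathGraph n).Adj (z, ht n (k + front.length + 1)) p ↔
        p = (x, ht n (k + front.length + 1))) := by
  have hcase : ∀ p ∈ lift n k (front ++ [[x], [x]]), p = (x, ht n (k + front.length + 1)) ∨
      p = (x, ht n (k + front.length)) ∨ ∃ i, i < front.length ∧ p.2 = ht n (k + i) := by
    intro p hp
    rw [lift_append, List.mem_append] at hp
    rcases hp with hp | hp
    · obtain ⟨i, hi, h3, _⟩ := mem_lift hp
      exact Or.inr (Or.inr ⟨i, hi, h3⟩)
    · rw [lift, lift, lift] at hp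
      simp only [List.map_cons, List.map_nil, List.cons_append, List.nil_append,
        List.mem_cons] at hp
      rcases hp with hp | hp | hp
      · right; left; exact hp
      · left; exact hp
      · simp at hp
  constructor
  · intro hz
    rcases hcase _ hz with h | h | ⟨i, hi, h⟩
    · have := (Prod.mk.inj h).1
      rw [this] at hxz; exact G.irrefl hxz
    · have := ht_inj (by omega) (by omega) (Prod.mk.inj h).2
      omega
    · have := ht_inj (by omega) (by omega) h
      omega
  · intro p hp
    rcases hcase p hp with rfl | rfl | ⟨i, hi, h⟩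
    · rw [box_adj_same]
      simp [hxz]
    · have hne : ht n (k + front.length + 1) ≠ ht n (k + front.length) := by
        intro h; have := ht_inj (by omega) (by omega) h; omega
      rw [box_adj_ne G _ _ hne]
      constructor
      · rintro ⟨_, h⟩; rw [h] at hxz; exact absurd hxz G.irrefl
      · intro h
        exact absurd (Prod.mk.inj h).2 (fun h' => hne h'.symm)
    · obtain ⟨y, hy⟩ := p
      have h' : hy = ht n (k + i) := h
      subst h'
      have hne : ht n (k + front.length + 1) ≠ ht n (k + i) := by
        intro h; have := ht_inj (by omega) (by omega) h; omega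
      rw [box_adj_ne G _ _ hne, ht_val (by omega), ht_val (by omega)]
      constructor
      · rintro ⟨h, _⟩; omega
      · intro h
        exact absurd (Prod.mk.inj h).2 (fun h' => hne h'.symm)

section

variable {G : SimpleGraph V} {k w : ℕ} {A B : List V} {a b c e a' b' c' e' : V}

theorem Duo.head_lift (m q : ℕ) : (lift n 1 (pre A B a b c e c' e' q ++
    List.replicate m [a])).head? = some (b, ht n 1) := rfl

theorem last_lift (front : List (List V)) (x : V) (k : ℕ) :
    (lift n k (front ++ [[x], [x]])).getLast? = some (x, ht n (k + front.length + 1)) := by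
  rw [lift_append, List.getLast?_append]
  rfl

theorem not_adj_far (G : SimpleGraph V) (x y : V) {i j : ℕ} (hi : i < n) (hj : j < n)
    (hij : i + 2 ≤ j) : ¬ (G □ pathGraph n).Adj (x, ht n i) (y, ht n j) := by
  have hne : ht n i ≠ ht n j := by
    intro h; have := ht_inj (by omega) (by omega) h; omega
  rw [box_adj_ne G _ _ hne, ht_val hi, ht_val hj]
  rintro ⟨h, _⟩; omega

/-- the step -/
theorem Duo.step [Finite V] (h : Duo G k w A B a b c e a' b' c' e') {q : ℕ}
    (hn : 4 * q + 8 ≤ n) :
    Duo (G □ pathGraph n) (k + 2) (4 * q * w)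
      (lift n 1 (pre A B a b c e c' e' q ++ [[a], [a]]))
      (lift n 1 (pre B A b a e c e' c' q ++ [[b], [b]]))
      (b, ht n 1) (a, ht n 1) (c, ht n 1) (e, ht n 1)
      (a, ht n (4 * q + 6)) (b, ht n (4 * q + 6)) (c, ht n (4 * q + 6)) (e, ht n (4 * q + 6)) := by
  have hl1 := length_pre A B a b c e c' e' q
  have hl2 := length_pre B A b a e c e' c' q
  have hlen1 : (pre A B a b c e c' e' q ++ [[a], [a]]).length = 4 * q + 6 := by
    rw [List.length_append, hl1]; rfl
  have hlen2 : (pre B A b a e c e' c' q ++ [[b], [b]]).length = 4 * q + 6 := by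
    rw [List.length_append, hl2]; rfl
  have htop1 : 1 + (pre A B a b c e c' e' q).length + 1 = 4 * q + 6 := by omega
  have htop2 : 1 + (pre B A b a e c e' c' q).length + 1 = 4 * q + 6 := by omega
  have hca : G.Adj c a := (h.hc.2.2.1 a h.aA).2 rfl
  have hcb : G.Adj c b := (h.hc.2.2.2 b h.bB).2 rfl
  have hea : G.Adj e a := (h.he.2.2.1 a h.aA).2 rfl
  have heb : G.Adj e b := (h.he.2.2.2 b h.bB).2 rfl
  have low1 : ∀ z, G.Adj z b → (z, ht n 1) ∉ lift n 1 (pre A B a b c e c' e' q ++ [[a], [a]]) ∧
      ∀ p ∈ lift n 1 (pre A B a b c e c' e' q ++ [[a], [a]]),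
      ((G □ pathGraph n).Adj (z, ht n 1) p ↔ p = (b, ht n 1)) := by
    intro z hz
    apply cor_low G hz ([b, e] :: blc A B a c e c' e' q ++ [[a], [a]])
    have : ([b, e] :: blc A B a c e c' e' q ++ [[a], [a]]).length = 4 * q + 4 := by
      simp [length_blc]
    omega
  have low2 : ∀ z, G.Adj z a → (z, ht n 1) ∉ lift n 1 (pre B A b a e c e' c' q ++ [[b], [b]]) ∧
      ∀ p ∈ lift n 1 (pre B A b a e c e' c' q ++ [[b], [b]]),
      ((G □ pathGraph n).Adj (z, ht n 1) p ↔ p = (a, ht n 1)) := by
    intro z hz
    apply cor_low G hz ([a, c] :: blc B A b e c e' c' q ++ [[b], [b]])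
    have : ([a, c] :: blc B A b e c e' c' q ++ [[b], [b]]).length = 4 * q + 4 := by
      simp [length_blc]
    omega
  have high1 : ∀ z, G.Adj z a → (z, ht n (4 * q + 6)) ∉
      lift n 1 (pre A B a b c e c' e' q ++ [[a], [a]]) ∧
      ∀ p ∈ lift n 1 (pre A B a b c e c' e' q ++ [[a], [a]]),
      ((G □ pathGraph n).Adj (z, ht n (4 * q + 6)) p ↔ p = (a, ht n (4 * q + 6))) := by
    intro z hz
    have := cor_high (n := n) G hz (pre A B a b c e c' e' q) (k := 1) (by omega)
    rw [htop1] at this
    exact this
  have high2 : ∀ z, G.Adj z b → (z, ht n (4 * q + 6)) ∉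
      lift n 1 (pre B A b a e c e' c' q ++ [[b], [b]]) ∧
      ∀ p ∈ lift n 1 (pre B A b a e c e' c' q ++ [[b], [b]]),
      ((G □ pathGraph n).Adj (z, ht n (4 * q + 6)) p ↔ p = (b, ht n (4 * q + 6))) := by
    intro z hz
    have := cor_high (n := n) G hz (pre B A b a e c e' c' q) (k := 1) (by omega)
    rw [htop2] at this
    exact this
  have hne : ht n 1 ≠ ht n (4 * q + 6) := by
    intro h'; have := ht_inj (by omega) (by omega) h'; omega
  refine
    { indA := ?_, indB := ?_, headA := ?_, headB := ?_, lastA := ?_, lastB := ?_, disj := ?_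
      hc := ⟨(low1 c hcb).1, (low2 c hca).1, (low1 c hcb).2, (low2 c hca).2⟩
      he := ⟨(low1 e heb).1, (low2 e hea).1, (low1 e heb).2, (low2 e hea).2⟩
      hc' := ⟨(high1 c hca).1, (high2 c hcb).1, (high1 c hca).2, (high2 c hcb).2⟩
      he' := ⟨(high1 e hea).1, (high2 e heb).1, (high1 e hea).2, (high2 e heb).2⟩
      ce := ?_, ce' := ?_, cc' := ?_, ce'' := ?_, ec' := ?_, ee' := ?_
      acc := ?_, ace := ?_, aec := ?_, aee := ?_, deg := ?_, wA := ?_, wB := ?_ }
  · apply ind_lift G _ 1 (by omega)
    · exact ind_all h 2 q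
    · exact chain_pre h 2 q
  · apply ind_lift G _ 1 (by omega)
    · exact ind_all h.swap 2 q
    · exact chain_pre h.swap 2 q
  · rfl
  · rfl
  · rw [last_lift, htop1]
  · rw [last_lift, htop2]
  · apply lift_disj _ 1 (by omega)
    have hfin : List.Forall₂ (fun s t => ∀ x ∈ s, x ∉ t) [[a], [a]] [[b], [b]] := by
      have hab : ∀ x ∈ [a], x ∉ [b] := by
        intro x hx hx'
        have h1 : x = a := by simpa using hx
        have h2 : x = b := by simpa using hx'
        exact h.disj x (by rw [h1]; exact h.aA) (by rw [h2]; exact h.bB)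
      exact List.Forall₂.cons hab (List.Forall₂.cons hab List.Forall₂.nil)
    exact List.rel_append (disj_pre h q) hfin
  · intro h'; exact h.ce (Prod.mk.inj h').1
  · intro h'; exact h.ce (Prod.mk.inj h').1
  · intro h'; exact hne (Prod.mk.inj h').2
  · intro h'; exact hne (Prod.mk.inj h').2
  · intro h'; exact hne (Prod.mk.inj h').2
  · intro h'; exact hne (Prod.mk.inj h').2
  · exact not_adj_far G _ _ (by omega) (by omega) (by omega)
  · exact not_adj_far G _ _ (by omega) (by omega) (by omega)
  · exact not_adj_far G _ _ (by omega) (by omega) (by omega)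
  · exact not_adj_far G _ _ (by omega) (by omega) (by omega)
  · have key : ∀ x i, 1 ≤ i → i + 1 < n → (x ∈ A ∨ x ∈ B ∨ x = c ∨ x = e ∨ x = c' ∨ x = e') →
        cnt (G □ pathGraph n) Set.univ (x, ht n i) = k + 2 := by
      intro x i h1 h2 h3
      rw [cnt_univ_box G x h1 (by omega), if_pos h2, h.deg x h3]
    intro p hp
    rcases hp with hp | hp | rfl | rfl | rfl | rfl
    · obtain ⟨i, hi, h3, s, hs, hps⟩ := mem_lift hp
      obtain ⟨x, z⟩ := p
      have h3' : z = ht n (1 + i) := h3
      subst h3'
      apply key x (1 + i) (by omega) (by omega)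
      rcases List.mem_append.1 hs with hs | hs
      · exact mem_pre_cases h q s hs x hps
      · have hs' : s = [a] := by simpa using hs
        rw [hs'] at hps
        have : x = a := by simpa using hps
        rw [this]; left; exact h.aA
    · obtain ⟨i, hi, h3, s, hs, hps⟩ := mem_lift hp
      obtain ⟨x, z⟩ := p
      have h3' : z = ht n (1 + i) := h3
      subst h3'
      apply key x (1 + i) (by omega) (by omega)
      rcases List.mem_append.1 hs with hs | hs
      · have := mem_pre_cases h.swap q s hs x hps
        tauto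
      · have hs' : s = [b] := by simpa using hs
        rw [hs'] at hps
        have : x = b := by simpa using hps
        rw [this]; right; left; exact h.bB
    · exact key c 1 le_rfl (by omega) (by tauto)
    · exact key e 1 le_rfl (by omega) (by tauto)
    · exact key c _ (by omega) (by omega) (by tauto)
    · exact key e _ (by omega) (by omega) (by tauto)
  · rw [length_lift, List.map_append, List.sum_append]
    have := sum_pre h q
    omega
  · rw [length_lift, List.map_append, List.sum_append]
    have := sum_pre h.swap q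
    omega

/-- transport along an isomorphism -/
theorem Duo.iso {W : Type*} [Finite V] [Finite W] {H : SimpleGraph W} (φ : G ≃g H)
    (h : Duo G k w A B a b c e a' b' c' e') :
    Duo H k w (A.map φ) (B.map φ) (φ a) (φ b) (φ c) (φ e) (φ a') (φ b') (φ c') (φ e') := by
  have hadj : ∀ x y, H.Adj (φ x) (φ y) ↔ G.Adj x y := fun x y => φ.map_adj_iff
  have hinj : ∀ x y, φ x = φ y → x = y := fun x y hxy => φ.injective hxy
  have hmem : ∀ (l : List V) x, φ x ∈ l.map φ ↔ x ∈ l := by
    intro l x
    rw [List.mem_map]
    constructor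
    · rintro ⟨y, hy, hxy⟩; rw [← hinj _ _ hxy]; exact hy
    · intro hx; exact ⟨x, hx, rfl⟩
  have hcnt : ∀ x, cnt H Set.univ (φ x) = cnt G Set.univ x := by
    intro x
    have := cnt_iso φ Set.univ x
    rw [Set.preimage_univ] at this
    exact this.symm
  have hcor : ∀ {u v z : V}, Cor G A B u v z → Cor H (A.map φ) (B.map φ) (φ u) (φ v) (φ z) := by
    rintro u v z ⟨h1, h2, h3, h4⟩
    refine ⟨by rwa [hmem], by rwa [hmem], ?_, ?_⟩
    · intro x hx
      obtain ⟨y, hy, rfl⟩ := List.mem_map.1 hx
      rw [hadj, h3 y hy]
      exact ⟨fun h => by rw [h], hinj _ _⟩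
    · intro x hx
      obtain ⟨y, hy, rfl⟩ := List.mem_map.1 hx
      rw [hadj, h4 y hy]
      exact ⟨fun h => by rw [h], hinj _ _⟩
  refine
    { indA := h.indA.map _ (fun u _ v _ => hinj u v) (fun u _ v _ => hadj u v)
      indB := h.indB.map _ (fun u _ v _ => hinj u v) (fun u _ v _ => hadj u v)
      headA := by rw [List.head?_map, h.headA]; rfl
      headB := by rw [List.head?_map, h.headB]; rfl
      lastA := by rw [List.getLast?_map, h.lastA]; rfl
      lastB := by rw [List.getLast?_map, h.lastB]; rfl
      disj := ?_
      hc := hcor h.hc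
      he := hcor h.he
      hc' := hcor h.hc'
      he' := hcor h.he'
      ce := fun h' => h.ce (hinj _ _ h')
      ce' := fun h' => h.ce' (hinj _ _ h')
      cc' := fun h' => h.cc' (hinj _ _ h')
      ce'' := fun h' => h.ce'' (hinj _ _ h')
      ec' := fun h' => h.ec' (hinj _ _ h')
      ee' := fun h' => h.ee' (hinj _ _ h')
      acc := by rw [hadj]; exact h.acc
      ace := by rw [hadj]; exact h.ace
      aec := by rw [hadj]; exact h.aec
      aee := by rw [hadj]; exact h.aee
      deg := ?_
      wA := by rw [List.length_map]; exact h.wA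
      wB := by rw [List.length_map]; exact h.wB }
  · intro x hx hx'
    obtain ⟨y, hy, rfl⟩ := List.mem_map.1 hx
    rw [hmem] at hx'
    exact h.disj y hy hx'
  · intro x hx
    obtain ⟨y, rfl⟩ := φ.surjective x
    rw [hcnt]
    apply h.deg
    rw [hmem, hmem] at hx
    rcases hx with hx | hx | hx | hx | hx | hx
    · tauto
    · tauto
    · have := hinj _ _ hx; tauto
    · have := hinj _ _ hx; tauto
    · have := hinj _ _ hx; tauto
    · have := hinj _ _ hx; tauto

/-- the final path reaches the boundary -/
theorem Duo.slow [Finite V] (h : Duo G k w A B a b c e a' b' c' e') {q : ℕ}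
    (hn : 4 * q + 8 ≤ n) {T : ℕ} (hT : T < 4 * q * w) : Slow (G □ pathGraph n) (k + 1) T := by
  obtain ⟨m, hm⟩ : ∃ m, n = 4 * q + 5 + m + 1 := ⟨n - (4 * q + 6), by omega⟩
  have hl1 := length_pre A B a b c e c' e' q
  set l := lift n 1 (pre A B a b c e c' e' q ++ List.replicate (m + 1) [a]) with hl
  have hind : Ind (G □ pathGraph n) l := by
    apply ind_lift G _ 1
    · rw [List.length_append, hl1, List.length_replicate]; omega
    · exact ind_all h (m + 1) q
    · exact chain_pre h (m + 1) q
  have hsum : 4 * q * w ≤ l.length := by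
    rw [hl, length_lift, List.map_append, List.sum_append]
    have := sum_pre h q
    omega
  have hl' : l = lift n 1 (pre A B a b c e c' e' q ++ List.replicate m [a]) ++
      [(a, ht n (4 * q + 5 + m))] := by
    rw [hl, List.replicate_succ', ← List.append_assoc, lift_append]
    congr 1
    rw [lift, lift, List.length_append, hl1, List.length_replicate]
    simp only [List.map_cons, List.map_nil, List.append_nil]
    congr 3
    omega
  have hlen2 : 2 ≤ l.length := by
    rw [hl', List.length_append]
    have : 2 ≤ (lift n 1 (pre A B a b c e c' e' q ++ List.replicate m [a])).length := by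
      rw [length_lift]
      unfold pre
      simp only [List.cons_append, List.map_cons, List.sum_cons, List.length_cons, List.length_nil]
      omega
    omega
  refine slow_of_ind (G □ pathGraph n) (by omega) hind hlen2 ?_ ?_ (lt_of_lt_of_le hT hsum)
  · intro i hi
    have hmem : l[i]'(by omega) ∈
        lift n 1 (pre A B a b c e c' e' q ++ List.replicate m [a]) := by
      have h1 : i < (lift n 1 (pre A B a b c e c' e' q ++ List.replicate m [a])).length := by
        have := congrArg List.length hl'
        rw [List.length_append, List.length_singleton] at this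
        omega
      have h2 : l[i]'(by omega) =
          (lift n 1 (pre A B a b c e c' e' q ++ List.replicate m [a]))[i]'h1 := by
        simp only [hl']
        rw [List.getElem_append_left h1]
      rw [h2]
      exact List.getElem_mem h1
    obtain ⟨j, hj, h3, s, hs, hps⟩ := mem_lift hmem
    rw [List.length_append, hl1, List.length_replicate] at hj
    have hpair : l[i]'(by omega) = ((l[i]'(by omega)).1, ht n (1 + j)) := by
      rw [← h3]
    rw [hpair, cnt_univ_box G _ (by omega) (by omega), if_pos (by omega)]
    have hk : cnt G Set.univ (l[i]'(by omega)).1 = k := by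
      apply h.deg
      rcases List.mem_append.1 hs with hs | hs
      · exact mem_pre_cases h q s hs _ hps
      · have hs' : s = [a] := (List.mem_replicate.1 hs).2
        rw [hs'] at hps
        have : (l[i]'(by omega)).1 = a := by simpa using hps
        rw [this]; left; exact h.aA
    rw [hk]
  · have h2 : l[l.length - 1]'(by omega) = (a, ht n (4 * q + 5 + m)) := by
      rw [List.getElem_length_sub_one_eq_getLast]
      simp only [hl']
      rw [List.getLast_append_of_ne_nil _ (by simp)]
      rfl
    rw [h2, cnt_univ_box G _ (by omega) (by omega), if_neg (by omega), h.deg a (Or.inl h.aA)]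

end

end Pool.Agent.Helper18.Snake
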