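import Mathlib
import Pool.Agent.Helper18.Snake.Spiral
import Pool.Agent.Helper18.Snake.Step

/-!
# The double spiral in the grid, and the iteration
-/

set_option autoImplicit false
set_option linter.unusedSectionVars false

namespace Pool.Agent.Helper18.Snake

open SimpleGraph Pool.Agent.Helper19.Perco

variable {n : ℕ} [NeZero n]

/-- the embedding in the grid -/
def emb (n : ℕ) [NeZero n] (p : ℤ × ℤ) : Fin n × Fin n :=
  (ht n (p.1 + 1).toNat, ht n (p.2 + 1).toNat)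

/-- the box -/
def Bx (n : ℕ) (p : ℤ × ℤ) : Prop := 0 ≤ p.1 ∧ p.1 + 3 ≤ n ∧ 0 ≤ p.2 ∧ p.2 + 3 ≤ n

theorem ht_toNat_inj {x y : ℤ} (hx : 0 ≤ x) (hx' : x + 3 ≤ n) (hy : 0 ≤ y) (hy' : y + 3 ≤ n) :
    ht n (x + 1).toNat = ht n (y + 1).toNat ↔ x = y := by
  constructor
  · intro h
    have := ht_inj (by omega) (by omega) h
    omega
  · intro h; rw [h]

theorem emb_inj {p q : ℤ × ℤ} (hp : Bx n p) (hq : Bx n q) (h : emb n p = emb n q) : p = q := by
  unfold emb at h
  obtain ⟨h1, h2⟩ := Prod.mk.inj h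
  obtain ⟨p1, p2, p3, p4⟩ := hp
  obtain ⟨q1, q2, q3, q4⟩ := hq
  rw [ht_toNat_inj p1 p2 q1 q2] at h1
  rw [ht_toNat_inj p3 p4 q3 q4] at h2
  exact Prod.ext h1 h2

theorem ht_adj {x y : ℤ} (hx : 0 ≤ x) (hx' : x + 3 ≤ n) (hy : 0 ≤ y) (hy' : y + 3 ≤ n) :
    (pathGraph n).Adj (ht n (x + 1).toNat) (ht n (y + 1).toNat) ↔ (x + 1 = y ∨ y + 1 = x) := by
  rw [pathGraph_adj, ht_val (by omega), ht_val (by omega)]
  omega

theorem emb_adj {p q : ℤ × ℤ} (hp : Bx n p) (hq : Bx n q) :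
    (pathGraph n □ pathGraph n).Adj (emb n p) (emb n q) ↔ G2.Adj p q := by
  obtain ⟨p1, p2, p3, p4⟩ := hp
  obtain ⟨q1, q2, q3, q4⟩ := hq
  rw [boxProd_adj]
  unfold emb
  simp only
  rw [ht_adj p1 p2 q1 q2, ht_adj p3 p4 q3 q4, ht_toNat_inj p1 p2 q1 q2,
    ht_toNat_inj p3 p4 q3 q4, G2_adj]
  constructor
  · rintro (⟨h1, h2⟩ | ⟨h1, h2⟩)
    · right; exact ⟨h2, h1⟩
    · left; exact ⟨h2, h1⟩
  · rintro (⟨h1, h2⟩ | ⟨h1, h2⟩)
    · right; exact ⟨h2, h1⟩
    · left; exact ⟨h2, h1⟩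

theorem cnt_path {i : ℕ} (h1 : 1 ≤ i) (h2 : i + 1 < n) :
    cnt (pathGraph n) Set.univ (ht n i) = 2 := by
  have h3 : (pathGraph n).neighborSet (ht n i) ∩ Set.univ = {ht n (i - 1), ht n (i + 1)} := by
    ext z
    rw [Set.inter_univ, mem_neighborSet, pathGraph_adj, ht_val (by omega), Set.mem_insert_iff,
      Set.mem_singleton_iff, Fin.ext_iff, Fin.ext_iff, ht_val (by omega), ht_val (by omega)]
    omega
  unfold cnt
  rw [h3, Set.ncard_pair]
  intro h
  have := ht_inj (by omega) (by omega) h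
  omega

theorem cnt_emb {p : ℤ × ℤ} (hp : Bx n p) :
    cnt (pathGraph n □ pathGraph n) Set.univ (emb n p) = 4 := by
  obtain ⟨p1, p2, p3, p4⟩ := hp
  unfold emb
  rw [cnt_univ_box _ _ (by omega) (by omega), cnt_path (by omega) (by omega), if_pos (by omega)]

theorem duo_plane {P : List (ℤ × ℤ)} {a b : ℕ} {s c : ℤ × ℤ} (h : St P a b s c) (hn : b + 7 ≤ n) :
    Duo (pathGraph n □ pathGraph n) 4 P.length ((pA P a b).map (emb n)) ((pB P a b).map (emb n))
      (emb n ((a : ℤ) + 4, (b : ℤ) + 3)) (emb n ((a : ℤ) + 3, (b : ℤ) + 4))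
      (emb n ((a : ℤ) + 3, (b : ℤ) + 3)) (emb n ((a : ℤ) + 4, (b : ℤ) + 4))
      (emb n s) (emb n (sg a b s)) (emb n c) (emb n (sg a b c)) := by
  have hab := h.ab
  have hA : ∀ p ∈ pA P a b, Bx n p := by
    intro p hp
    have := h.boxA p hp
    unfold Bx; omega
  have hB : ∀ p ∈ pB P a b, Bx n p := by
    intro p hp
    have := h.boxB p hp
    unfold Bx; omega
  have hcb := h.cbox
  have hc1 : Bx n ((a : ℤ) + 3, (b : ℤ) + 3) := by unfold Bx; simp only; omega
  have hc2 : Bx n ((a : ℤ) + 4, (b : ℤ) + 4) := by unfold Bx; simp only; omega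
  have hc3 : Bx n c := by unfold Bx; omega
  have hc4 : Bx n (sg a b c) := by unfold Bx sg; simp only; omega
  have hmem : ∀ (l : List (ℤ × ℤ)) x, (∀ p ∈ l, Bx n p) → Bx n x →
      (emb n x ∈ l.map (emb n) ↔ x ∈ l) := by
    intro l x hl hx
    rw [List.mem_map]
    constructor
    · rintro ⟨y, hy, hxy⟩; rw [← emb_inj (hl y hy) hx hxy]; exact hy
    · intro hx; exact ⟨x, hx, rfl⟩
  have hcor : ∀ {u v z : ℤ × ℤ}, Bx n z → Bx n u → Bx n v → Cor G2 (pA P a b) (pB P a b) u v z →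
      Cor (pathGraph n □ pathGraph n) ((pA P a b).map (emb n)) ((pB P a b).map (emb n))
        (emb n u) (emb n v) (emb n z) := by
    rintro u v z hz hu hv ⟨h1, h2, h3, h4⟩
    refine ⟨by rwa [hmem _ _ hA hz], by rwa [hmem _ _ hB hz], ?_, ?_⟩
    · intro x hx
      obtain ⟨y, hy, rfl⟩ := List.mem_map.1 hx
      rw [emb_adj hz (hA y hy), h3 y hy]
      exact ⟨fun h => by rw [h], fun h => emb_inj (hA y hy) hu h⟩
    · intro x hx
      obtain ⟨y, hy, rfl⟩ := List.mem_map.1 hx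
      rw [emb_adj hz (hB y hy), h4 y hy]
      exact ⟨fun h => by rw [h], fun h => emb_inj (hB y hy) hv h⟩
  have ha1 : Bx n ((a : ℤ) + 4, (b : ℤ) + 3) := hA _ (List.mem_of_mem_head? (pA_head P a b))
  have hb1 : Bx n ((a : ℤ) + 3, (b : ℤ) + 4) := hB _ (List.mem_of_mem_head? (pB_head P a b))
  have ha2 : Bx n s := hA _ (List.mem_of_getLast? h.pA_last)
  have hb2 : Bx n (sg a b s) := hB _ (List.mem_of_getLast? h.pB_last)
  refine
    { indA := h.indA.map _ (fun u hu v hv => emb_inj (hA u hu) (hA v hv))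
        (fun u hu v hv => emb_adj (hA u hu) (hA v hv))
      indB := h.indB.map _ (fun u hu v hv => emb_inj (hB u hu) (hB v hv))
        (fun u hu v hv => emb_adj (hB u hu) (hB v hv))
      headA := by rw [List.head?_map, pA_head]; rfl
      headB := by rw [List.head?_map, pB_head]; rfl
      lastA := by rw [List.getLast?_map, h.pA_last]; rfl
      lastB := by rw [List.getLast?_map, h.pB_last]; rfl
      disj := ?_
      hc := hcor hc1 ha1 hb1 (h.corO (Or.inl rfl))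
      he := hcor hc2 ha1 hb1 (h.corO (Or.inr rfl))
      hc' := hcor hc3 ha2 hb2 (h.corI (Or.inl rfl))
      he' := hcor hc4 ha2 hb2 (h.corI (Or.inr rfl))
      ce := ?_
      ce' := fun h' => h.ce (emb_inj hc3 hc4 h')
      cc' := ?_, ce'' := ?_, ec' := ?_, ee' := ?_
      acc := ?_, ace := ?_, aec := ?_, aee := ?_
      deg := ?_
      wA := by rw [List.length_map]; exact h.lenA
      wB := by rw [List.length_map]; exact h.lenB }
  · intro x hx hx'
    obtain ⟨y, hy, rfl⟩ := List.mem_map.1 hx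
    rw [hmem _ _ hB (hA y hy)] at hx'
    exact h.disjAB y hy hx'
  · intro h'
    have := emb_inj hc1 hc2 h'
    simp only [Prod.mk.injEq] at this; omega
  · intro h'
    have := emb_inj hc1 hc3 h'
    rw [← this] at hcb; simp only at hcb; omega
  · intro h'
    have := congrArg Prod.fst (emb_inj hc1 hc4 h')
    unfold sg at this; simp only at this; omega
  · intro h'
    have := emb_inj hc2 hc3 h'
    rw [← this] at hcb; simp only at hcb; omega
  · intro h'
    have := congrArg Prod.fst (emb_inj hc2 hc4 h')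
    unfold sg at this; simp only at this; omega
  · rw [emb_adj hc1 hc3, G2_adj]; simp only; omega
  · rw [emb_adj hc1 hc4, G2_adj]; unfold sg; simp only; omega
  · rw [emb_adj hc2 hc3, G2_adj]; simp only; omega
  · rw [emb_adj hc2 hc4, G2_adj]; unfold sg; simp only; omega
  · rintro x (hx | hx | rfl | rfl | rfl | rfl)
    · obtain ⟨y, hy, rfl⟩ := List.mem_map.1 hx
      exact cnt_emb (hA y hy)
    · obtain ⟨y, hy, rfl⟩ := List.mem_map.1 hx
      exact cnt_emb (hB y hy)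
    · exact cnt_emb hc1
    · exact cnt_emb hc2
    · exact cnt_emb hc3
    · exact cnt_emb hc4

/-- a pair of paths exists -/
def HasDuo {V : Type*} (G : SimpleGraph V) (k w : ℕ) : Prop :=
  ∃ A B a b c e a' b' c' e', Duo G k w A B a b c e a' b' c' e'

theorem hasDuo_plane (hn : 13 ≤ n) : ∃ w : ℕ, (n - 9) * (n - 9) ≤ 2 * w + 12 ∧
    HasDuo (pathGraph n □ pathGraph n) 4 w := by
  obtain ⟨P, a, b, s, c, h, hk⟩ := st_exists (n - 13)
  have hab := h.ab
  have hba := h.ba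
  refine ⟨P.length, ?_, _, _, _, _, _, _, _, _, _, _, duo_plane h (by omega)⟩
  have h1 : n - 9 ≤ a := by omega
  have h2 : n - 9 ≤ b := by omega
  exact le_trans (Nat.mul_le_mul h1 h2) h.size

theorem HasDuo.iso {V W : Type*} [Finite V] [Finite W] {G : SimpleGraph V} {H : SimpleGraph W}
    {k w : ℕ} (φ : G ≃g H) (h : HasDuo G k w) : HasDuo H k w := by
  obtain ⟨A, B, a, b, c, e, a', b', c', e', h⟩ := h
  exact ⟨_, _, _, _, _, _, _, _, _, _, h.iso φ⟩

theorem hasDuo_grid {q : ℕ} (hn : 4 * q + 8 ≤ n) {w : ℕ}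
    (h : HasDuo (pathGraph n □ pathGraph n) 4 w) (m : ℕ) :
    HasDuo (Gd (m + 2) n) (2 * m + 4) ((4 * q) ^ m * w) := by
  induction m with
  | zero =>
    rw [pow_zero, one_mul]
    exact h.iso ((boxCongr (oneIso n) Iso.refl).trans (snocIso 1 n))
  | succ m ih =>
    obtain ⟨A, B, a, b, c, e, a', b', c', e', h⟩ := ih
    have h1 := h.step hn
    have h2 : 4 * q * ((4 * q) ^ m * w) = (4 * q) ^ (m + 1) * w := by rw [pow_succ]; ring
    rw [h2] at h1
    have h3 : HasDuo (Gd (m + 2) n □ pathGraph n) (2 * m + 4 + 2) ((4 * q) ^ (m + 1) * w) :=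
      ⟨_, _, _, _, _, _, _, _, _, _, h1⟩
    exact h3.iso (snocIso (m + 2) n)

theorem slow_grid {q : ℕ} (hn : 4 * q + 8 ≤ n) {w : ℕ}
    (h : HasDuo (pathGraph n □ pathGraph n) 4 w) (m : ℕ) {T : ℕ}
    (hT : T < (4 * q) ^ (m + 1) * w) : Slow (Gd (m + 3) n) (2 * m + 5) T := by
  obtain ⟨A, B, a, b, c, e, a', b', c', e', h⟩ := hasDuo_grid hn h m
  have h1 := h.slow hn (T := T) (by rw [pow_succ] at hT; linarith)
  exact h1.iso (snocIso (m + 2) n)

end Pool.Agent.Helper18.Snake
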