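import Mathlib

/-!
# The maximum percolation time of the grid
-/

set_option autoImplicit false

namespace Pool.Agent.Helper18.Snake.Top

/-- The grid graph on `Fin d → Fin n`: two points are adjacent when they differ by one in
exactly one coordinate and agree in all others. -/
def grid (d n : ℕ) : SimpleGraph (Fin d → Fin n) where
  Adj x y := ∃ i, ((x i : ℕ) + 1 = y i ∨ (y i : ℕ) + 1 = x i) ∧ ∀ j, j ≠ i → x j = y j
  symm := ⟨by
    rintro x y ⟨i, h1, h2⟩
    exact ⟨i, h1.symm, fun j hj => (h2 j hj).symm⟩⟩
  loopless := ⟨by
    rintro x ⟨i, h1, h2⟩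
    omega⟩

/-- The `r`-neighbour bootstrap process on the grid started from `A`. -/
def infected (d r n : ℕ) (A : Set (Fin d → Fin n)) : ℕ → Set (Fin d → Fin n)
  | 0 => A
  | t + 1 => infected d r n A t ∪
      {v | r ≤ ((grid d n).neighborSet v ∩ infected d r n A t).ncard}

/-- `A` percolates: every vertex is infected at some time. -/
def Percolates (d r n : ℕ) (A : Set (Fin d → Fin n)) : Prop :=
  ⋃ t, infected d r n A t = Set.univ

/-- The percolation time of `A`. -/
noncomputable def percTime (d r n : ℕ) (A : Set (Fin d → Fin n)) : ℕ :=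
  sInf {t | infected d r n A t = Set.univ}

/-- The maximum percolation time. -/
noncomputable def maxTime (d r n : ℕ) : ℕ :=
  sSup {T | ∃ A, Percolates d r n A ∧ percTime d r n A = T}

end Pool.Agent.Helper18.Snake.Top
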