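import Mathlib
import Pool.Agent.Helper70.PercUpper2
import Pool.Agent.Helper18.Snake.Huang

/-!
# The upper bound for `r = 2 d - 1`
-/

set_option autoImplicit false
set_option linter.unusedSectionVars false

namespace Pool.Agent.Helper18.Snake

open Set SimpleGraph Pool.Agent.Helper19.Perco Pool.Agent.Helper70.Duo

/-- at most one late neighbour -/
lemma late_unique {V : Type*} [Finite V] {G : SimpleGraph V} {r : ℕ} {A : Set V}
    (hA : Perc G r A) {v : V} (hdeg : cnt G Set.univ v ≤ r + 1) (hv : 1 ≤ tau G r A v) {u w : V}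
    (hu : G.Adj v u) (hw : G.Adj v w) (hut : tau G r A v ≤ tau G r A u)
    (hwt : tau G r A v ≤ tau G r A w) : u = w := by
  by_contra hne
  obtain ⟨s, hs⟩ : ∃ s, tau G r A v = s + 1 := ⟨tau G r A v - 1, by omega⟩
  have h1 : v ∉ proc G r A s := by rw [mem_proc_iff hA]; omega
  have h2 : v ∈ proc G r A (s + 1) := by rw [mem_proc_iff hA]; omega
  have h3 : r ≤ cnt G (proc G r A s) v := by
    rcases h2 with h2 | h2
    · exact absurd h2 h1
    · exact h2
  have hu1 : u ∉ proc G r A s := by rw [mem_proc_iff hA]; omega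
  have hw1 : w ∉ proc G r A s := by rw [mem_proc_iff hA]; omega
  have h4 : cnt G (proc G r A s) v + 2 ≤ cnt G Set.univ v := by
    unfold cnt
    have h5 : (({u, w} : Set V)).ncard = 2 := Set.ncard_pair hne
    have h6 : Disjoint (G.neighborSet v ∩ proc G r A s) ({u, w} : Set V) := by
      rw [Set.disjoint_left]
      rintro x ⟨_, hx⟩ hx'
      rcases hx' with hx' | hx'
      · rw [hx'] at hx; exact hu1 hx
      · rw [hx'] at hx; exact hw1 hx
    rw [← h5, ← Set.ncard_union_eq h6 (Set.toFinite _) (Set.toFinite _)]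
    apply Set.ncard_le_ncard _ (Set.toFinite _)
    rintro x (hx | hx)
    · exact ⟨hx.1, trivial⟩
    · rcases hx with hx | hx
      · rw [hx]; exact ⟨hu, trivial⟩
      · rw [hx]; exact ⟨hw, trivial⟩
  omega

/-- local coordinates -/
def loc {d n : ℕ} (x : Fin d → Fin n) (i : Fin d) : Bool := decide ((x i).val % 2 = 1)

/-- block -/
def blk {d n : ℕ} (x : Fin d → Fin n) (i : Fin d) : Fin ((n + 1) / 2) :=
  ⟨(x i).val / 2, by have := (x i).isLt; omega⟩

lemma blk_loc_inj {d n : ℕ} {x y : Fin d → Fin n} (h1 : blk x = blk y) (h2 : loc x = loc y) :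
    x = y := by
  funext i
  have h3 := congrArg Fin.val (congrFun h1 i)
  have h4 := congrFun h2 i
  unfold loc at h4
  unfold blk at h3
  simp only [decide_eq_decide] at h3 h4
  apply Fin.ext
  omega

lemma blk_loc_adj {d n : ℕ} {x y : Fin d → Fin n} (h1 : blk x = blk y) {i : Fin d}
    (h2 : loc y = flp i (loc x)) : (Gd d n).Adj x y := by
  have h3 : ∀ j, (x j).val / 2 = (y j).val / 2 := fun j => congrArg Fin.val (congrFun h1 j)
  refine ⟨i, ?_, ?_⟩
  · have h4 := congrFun h2 i
    unfold flp at h4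
    rw [Function.update_self] at h4
    unfold loc at h4
    have h5 := h3 i
    by_cases h6 : (x i).val % 2 = 1
    · rw [decide_eq_true h6] at h4
      simp only [Bool.not_true, decide_eq_false_iff_not] at h4
      omega
    · rw [decide_eq_false h6] at h4
      simp only [Bool.not_false, decide_eq_true_eq] at h4
      omega
  · intro j hj
    have h4 := congrFun h2 j
    unfold flp at h4
    rw [Function.update_of_ne hj] at h4
    unfold loc at h4
    simp only [decide_eq_decide] at h4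
    have := h3 j
    apply Fin.ext
    omega

/-- the upper bound for `r = 2 d - 1`, `d ≥ 4` -/
theorem upper_top {m n T : ℕ} (hm : 3 ≤ m) {A : Set (Fin (m + 1) → Fin n)}
    (hA : Perc (Gd (m + 1) n) (2 * m + 1) A) {v : Fin (m + 1) → Fin n}
    (hv : tau (Gd (m + 1) n) (2 * m + 1) A v = T) :
    T ≤ ((n + 1) / 2) ^ (m + 1) * 2 ^ m := by
  classical
  rcases Nat.eq_zero_or_pos T with h0 | h0
  · rw [h0]; exact Nat.zero_le _
  obtain ⟨p, h1, h2, -⟩ := exists_chain hA T h0 v hv
  set τ := tau (Gd (m + 1) n) (2 * m + 1) A with hτ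
  have hinj : ∀ i ∈ Finset.Icc 1 T, ∀ j ∈ Finset.Icc 1 T, p i = p j → i = j := by
    intro i hi j hj h
    rw [Finset.mem_Icc] at hi hj
    have := h1 i hi.1 hi.2
    rw [h, h1 j hj.1 hj.2] at this
    exact this.symm
  set P := (Finset.Icc 1 T).image p with hP
  have hPcard : P.card = T := by
    rw [hP, Finset.card_image_of_injOn (fun i hi j hj h => hinj i hi j hj h), Nat.card_Icc]
    omega
  -- adjacency inside the chain
  have hlate : ∀ x ∈ P, ∀ y ∈ P, (Gd (m + 1) n).Adj x y → τ x ≤ τ y → τ y = τ x + 1 := by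
    intro x hx y hy hxy hle
    obtain ⟨i, hi, rfl⟩ := Finset.mem_image.1 hx
    obtain ⟨j, hj, rfl⟩ := Finset.mem_image.1 hy
    rw [Finset.mem_Icc] at hi hj
    rw [h1 i hi.1 hi.2, h1 j hj.1 hj.2] at hle
    have hij : i ≠ j := by rintro rfl; exact hxy.ne rfl
    have h3 : p j = p (i + 1) := by
      refine late_unique hA (v := p i) ?_ (by rw [← hτ, h1 i hi.1 hi.2]; omega) hxy
        (h2 i hi.1 (by omega)) ?_ ?_
      · have := deg_add_bd (p i); omega
      · rw [← hτ, h1 i hi.1 hi.2, h1 j hj.1 hj.2]; omega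
      · rw [← hτ, h1 i hi.1 hi.2, h1 (i + 1) (by omega) (by omega)]; omega
    rw [h3, h1 (i + 1) (by omega) (by omega), h1 i hi.1 hi.2]
  -- each block
  have hblock : ∀ β : Fin (m + 1) → Fin ((n + 1) / 2), (P.filter fun x => blk x = β).card ≤
      2 ^ m := by
    intro β
    set Q := P.filter fun x => blk x = β with hQ
    have hQm : ∀ x ∈ Q, x ∈ P ∧ blk x = β := fun x hx => Finset.mem_filter.1 hx
    have hlinj : Set.InjOn (loc : (Fin (m + 1) → Fin n) → (Fin (m + 1) → Bool)) (Q : Set _) := by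
      intro x hx y hy h
      exact blk_loc_inj (((hQm x hx).2).trans ((hQm y hy).2).symm) h
    have hS : (Q.image loc).card = Q.card := Finset.card_image_of_injOn hlinj
    rw [← hS]
    -- index function
    have hex : ∀ u : Fin (m + 1) → Bool, ∃ k : ℕ, ∀ x ∈ Q, loc x = u → τ x = k := by
      intro u
      by_cases hu : ∃ x ∈ Q, loc x = u
      · obtain ⟨x, hx, hxu⟩ := hu
        refine ⟨τ x, ?_⟩
        intro y hy hyu
        rw [hlinj hy hx (hyu.trans hxu.symm)]
      · refine ⟨0, ?_⟩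
        intro x hx hxu
        exact absurd ⟨x, hx, hxu⟩ hu
    choose idx hidx using hex
    have hτinj : ∀ x ∈ P, ∀ y ∈ P, τ x = τ y → x = y := by
      intro x hx y hy h
      obtain ⟨i, hi, rfl⟩ := Finset.mem_image.1 hx
      obtain ⟨j, hj, rfl⟩ := Finset.mem_image.1 hy
      rw [Finset.mem_Icc] at hi hj
      rw [h1 i hi.1 hi.2, h1 j hj.1 hj.2] at h
      rw [h]
    apply path_card m hm _ idx
    · intro u hu w hw huw
      obtain ⟨x, hx, rfl⟩ := Finset.mem_image.1 hu
      obtain ⟨y, hy, rfl⟩ := Finset.mem_image.1 hw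
      rw [← hidx _ x hx rfl, ← hidx _ y hy rfl] at huw
      rw [hτinj x (hQm x hx).1 y (hQm y hy).1 huw]
    · intro u hu i hiu
      obtain ⟨x, hx, rfl⟩ := Finset.mem_image.1 hu
      obtain ⟨y, hy, hxy⟩ := Finset.mem_image.1 hiu
      rw [← hxy, ← hidx _ x hx rfl, ← hidx _ y hy rfl]
      have hadj : (Gd (m + 1) n).Adj x y :=
        blk_loc_adj (((hQm x hx).2).trans ((hQm y hy).2).symm) hxy
      rcases le_total (τ x) (τ y) with h | h
      · left; exact hlate x (hQm x hx).1 y (hQm y hy).1 hadj h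
      · right; exact hlate y (hQm y hy).1 x (hQm x hx).1 hadj.symm h
  have hsum : P.card = ∑ β : Fin (m + 1) → Fin ((n + 1) / 2),
      (P.filter fun x => blk x = β).card :=
    Finset.card_eq_sum_card_fiberwise (fun x _ => Finset.mem_coe.2 (Finset.mem_univ (blk x)))
  rw [← hPcard, hsum]
  refine le_trans (Finset.sum_le_sum fun β _ => hblock β) ?_
  rw [Finset.sum_const, Finset.card_univ, Fintype.card_fun, Fintype.card_fin, Fintype.card_fin,
    smul_eq_mul]

/-- the upper bound, closed form -/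
theorem upper_top' {m n T : ℕ} (hm : 3 ≤ m) {A : Set (Fin (m + 1) → Fin n)}
    (hA : Perc (Gd (m + 1) n) (2 * m + 1) A) {v : Fin (m + 1) → Fin n}
    (hv : tau (Gd (m + 1) n) (2 * m + 1) A v = T) :
    2 * T ≤ (n + 1) ^ (m + 1) := by
  have h := upper_top hm hA hv
  have h1 : 2 * ((n + 1) / 2) ≤ n + 1 := Nat.mul_div_le _ _
  calc 2 * T ≤ 2 * (((n + 1) / 2) ^ (m + 1) * 2 ^ m) := by omega
    _ = (2 * ((n + 1) / 2)) ^ (m + 1) := by rw [mul_pow, pow_succ 2 m]; ring
    _ ≤ _ := Nat.pow_le_pow_left h1 _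

end Pool.Agent.Helper18.Snake
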