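import Pool.Agent.Helper18.Snake.TopDefs
import Pool.Agent.Helper18.Snake.Plane
import Pool.Agent.Helper18.Snake.Upper

/-!
# The maximum percolation time for the threshold `r = 2 d - 1`
-/

set_option autoImplicit false

namespace Pool.Agent.Helper18.Snake.Top

open Pool.Agent.Helper19.Perco Pool.Agent.Helper70.Duo Pool.Agent.Helper18.Snake

lemma infected_eq (d r n : ℕ) (A : Set (Fin d → Fin n)) (t : ℕ) :
    infected d r n A t = proc (Gd d n) r A t := by
  induction t with
  | zero => rfl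
  | succ t ih =>
    have h : infected d r n A (t + 1) = infected d r n A t ∪
      {v | r ≤ ((grid d n).neighborSet v ∩ infected d r n A t).ncard} := rfl
    rw [h, ih]
    rfl

lemma exists_univ {d r n : ℕ} {A : Set (Fin d → Fin n)} (h : Percolates d r n A) :
    ∃ t, infected d r n A t = Set.univ := by
  obtain ⟨t, ht⟩ := exists_proc_closed (Gd d n) r A
  refine ⟨t, Set.eq_univ_of_forall fun v => ?_⟩
  have hv : v ∈ ⋃ t, infected d r n A t := by rw [h]; exact Set.mem_univ v
  obtain ⟨s, hs⟩ := Set.mem_iUnion.1 hv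
  rw [infected_eq] at hs ⊢
  have hall : ∀ s, proc (Gd d n) r (proc (Gd d n) r A t) s ⊆ proc (Gd d n) r A t := fun s =>
    proc_subset_closed (Gd d n) r _ _ subset_rfl ht s
  have : proc (Gd d n) r A s ⊆ proc (Gd d n) r A t := by
    rcases le_total s t with hst | hst
    · exact proc_mono_time _ _ _ hst
    · obtain ⟨u, rfl⟩ := Nat.exists_eq_add_of_le hst
      rw [proc_add]
      exact hall u
  exact this hs

lemma percTime_le {d r n : ℕ} {A : Set (Fin d → Fin n)} (h : Percolates d r n A) :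
    percTime d r n A ≤ n ^ d := by
  have hex := exists_univ h
  have hT : infected d r n A (percTime d r n A) = Set.univ := Nat.sInf_mem hex
  have hlt : ∀ t < percTime d r n A,
      (infected d r n A t).ncard < (infected d r n A (t + 1)).ncard := by
    intro t ht
    apply Set.ncard_lt_ncard _ (Set.toFinite _)
    refine ⟨fun v hv => Or.inl hv, fun hsub => ?_⟩
    -- the process is stationary from time `t`
    have hst : Closed (Gd d n) r (infected d r n A t) := by
      intro v hv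
      exact hsub (Or.inr hv)
    have hall : infected d r n A (percTime d r n A) ⊆ infected d r n A t := by
      obtain ⟨u, hu⟩ := Nat.exists_eq_add_of_le ht.le
      rw [hu, infected_eq, infected_eq, proc_add]
      exact proc_subset_closed (Gd d n) r _ _ subset_rfl (by rw [← infected_eq]; exact hst) u
    have h2 : infected d r n A t = Set.univ := by
      apply Set.eq_univ_of_univ_subset
      rw [← hT]; exact hall
    have h3 : percTime d r n A ≤ t := Nat.sInf_le h2
    omega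
  have hge : ∀ t ≤ percTime d r n A, t ≤ (infected d r n A t).ncard := by
    intro t
    induction t with
    | zero => intro _; exact Nat.zero_le _
    | succ t ih => intro ht; have := hlt t (by omega); have := ih (by omega); omega
  have h1 := hge _ le_rfl
  rw [hT, Set.ncard_univ, Nat.card_eq_fintype_card, Fintype.card_fun, Fintype.card_fin,
    Fintype.card_fin] at h1
  exact h1

lemma bddAbove (d r n : ℕ) :
    BddAbove {T | ∃ A, Percolates d r n A ∧ percTime d r n A = T} := by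
  refine ⟨n ^ d, ?_⟩
  rintro T ⟨A, hA, rfl⟩
  exact percTime_le hA

lemma maxTime_le (d r n : ℕ) : maxTime d r n ≤ n ^ d := by
  unfold maxTime
  rcases Set.eq_empty_or_nonempty {T | ∃ A, Percolates d r n A ∧ percTime d r n A = T} with h | h
  · rw [h]; simp
  · refine csSup_le h ?_
    rintro T ⟨A, hA, rfl⟩
    exact percTime_le hA

lemma lt_maxTime {d r n T : ℕ} (h : Slow (Gd d n) r T) : T < maxTime d r n := by
  obtain ⟨A, hA, v, hv⟩ := h
  obtain ⟨t, ht⟩ := (perc_iff (Gd d n) r A).1 hA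
  have hperc : Percolates d r n A := by
    apply Set.eq_univ_of_forall
    intro w
    refine Set.mem_iUnion.2 ⟨t, ?_⟩
    rw [infected_eq, ht]; exact Set.mem_univ w
  have h1 : T < percTime d r n A := by
    by_contra hlt
    push Not at hlt
    have hT : infected d r n A (percTime d r n A) = Set.univ := Nat.sInf_mem (exists_univ hperc)
    apply hv
    apply proc_mono_time (Gd d n) r A hlt
    rw [← infected_eq, hT]; exact Set.mem_univ v
  exact lt_of_lt_of_le h1 (le_csSup (bddAbove d r n) ⟨A, hperc, rfl⟩)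

/-- the lower bound in natural numbers -/
lemma lower_nat (m n : ℕ) (hn : 15 ≤ n) :
    (n - 11) ^ (m + 1) * ((n - 9) * (n - 9) - 12) ≤ 2 * maxTime (m + 3) (2 * m + 5) n := by
  have : NeZero n := ⟨by omega⟩
  obtain ⟨w, hw, hd⟩ := hasDuo_plane (n := n) (by omega)
  set q := (n - 8) / 4 with hq
  have h1 : n - 11 ≤ 4 * q := by omega
  have h2 : 4 * q + 8 ≤ n := by omega
  have h3 : (4 * q) ^ (m + 1) * w ≤ maxTime (m + 3) (2 * m + 5) n := by
    rcases Nat.eq_zero_or_pos ((4 * q) ^ (m + 1) * w) with h0 | h0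
    · rw [h0]; exact Nat.zero_le _
    · have := lt_maxTime (slow_grid h2 hd m (T := (4 * q) ^ (m + 1) * w - 1) (by omega))
      omega
  have h4 : (n - 9) * (n - 9) - 12 ≤ 2 * w := by omega
  calc (n - 11) ^ (m + 1) * ((n - 9) * (n - 9) - 12)
      ≤ (4 * q) ^ (m + 1) * (2 * w) := Nat.mul_le_mul (Nat.pow_le_pow_left h1 _) h4
    _ = 2 * ((4 * q) ^ (m + 1) * w) := by ring
    _ ≤ _ := by omega

/-- the lower bound -/
lemma lower (d n : ℕ) (hd : 3 ≤ d) :
    (n : ℝ) ^ d - 15 * d * (n : ℝ) ^ (d - 1) ≤ 2 * maxTime d (2 * d - 1) n := by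
  obtain ⟨m, rfl⟩ : ∃ m, d = m + 3 := ⟨d - 3, by omega⟩
  have e1 : 2 * (m + 3) - 1 = 2 * m + 5 := by omega
  have e2 : m + 3 - 1 = m + 2 := by omega
  rw [e1, e2]
  have hM0 : (0 : ℝ) ≤ maxTime (m + 3) (2 * m + 5) n := Nat.cast_nonneg _
  have hn0 : (0 : ℝ) ≤ (n : ℝ) := Nat.cast_nonneg n
  have hp0 : (0 : ℝ) ≤ (n : ℝ) ^ (m + 2) := by positivity
  have hpow : (n : ℝ) ^ (m + 3) = n * (n : ℝ) ^ (m + 2) := by rw [← pow_succ']
  rcases Nat.lt_or_ge n 15 with hn | hn
  · have hn' : (n : ℝ) ≤ 15 := by exact_mod_cast hn.le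
    have hm0 : (0 : ℝ) ≤ (m : ℝ) := Nat.cast_nonneg m
    rw [hpow]
    push_cast
    nlinarith [mul_nonneg hm0 hp0]
  · have h1 := lower_nat m n hn
    obtain ⟨k, rfl⟩ : ∃ k, n = k + 15 := ⟨n - 15, by omega⟩
    have e3 : k + 15 - 11 = k + 4 := by omega
    have e4 : k + 15 - 9 = k + 6 := by omega
    rw [e3, e4] at h1
    have h2 : k ^ (m + 3) ≤ (k + 4) ^ (m + 1) * ((k + 6) * (k + 6) - 12) := by
      have h3 : k ^ 2 ≤ (k + 6) * (k + 6) - 12 := by
        apply Nat.le_sub_of_add_le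
        nlinarith
      calc k ^ (m + 3) = k ^ (m + 1) * k ^ 2 := by rw [← pow_add]
        _ ≤ _ := Nat.mul_le_mul (Nat.pow_le_pow_left (by omega) _) h3
    have h3 : (k : ℝ) ^ (m + 3) ≤ 2 * maxTime (m + 3) (2 * m + 5) (k + 15) := by
      exact_mod_cast le_trans h2 h1
    refine le_trans ?_ h3
    -- Bernoulli
    have hpos : (0 : ℝ) < ((k + 15 : ℕ) : ℝ) := by positivity
    have h4 : (-2 : ℝ) ≤ -(15 / ((k + 15 : ℕ) : ℝ)) := by
      have : 15 / ((k + 15 : ℕ) : ℝ) ≤ 1 := by
        rw [div_le_one hpos]; push_cast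
        have : (0 : ℝ) ≤ (k : ℝ) := Nat.cast_nonneg k
        linarith
      linarith
    have h5 := one_add_mul_le_pow h4 (m + 3)
    have h6 : (k : ℝ) ^ (m + 3) = ((k + 15 : ℕ) : ℝ) ^ (m + 3) *
        (1 + -(15 / ((k + 15 : ℕ) : ℝ))) ^ (m + 3) := by
      rw [← mul_pow]
      congr 1
      field_simp
      push_cast
      ring
    rw [h6]
    calc ((k + 15 : ℕ) : ℝ) ^ (m + 3) - 15 * ((m + 3 : ℕ) : ℝ) * ((k + 15 : ℕ) : ℝ) ^ (m + 2)
        = ((k + 15 : ℕ) : ℝ) ^ (m + 3) *
          (1 + ((m + 3 : ℕ) : ℝ) * -(15 / ((k + 15 : ℕ) : ℝ))) := by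
          rw [hpow]; field_simp; ring
      _ ≤ _ := mul_le_mul_of_nonneg_left h5 (by positivity)

/-- the upper bound -/
lemma upper (d n : ℕ) (hd : 4 ≤ d) : 2 * maxTime d (2 * d - 1) n ≤ (n + 1) ^ d := by
  obtain ⟨m, rfl⟩ : ∃ m, d = m + 1 := ⟨d - 1, by omega⟩
  have e1 : 2 * (m + 1) - 1 = 2 * m + 1 := by omega
  rw [e1]
  rcases Nat.eq_zero_or_pos (maxTime (m + 1) (2 * m + 1) n) with h0 | h0
  · rw [h0]; exact Nat.zero_le _
  have hne : {T | ∃ A, Percolates (m + 1) (2 * m + 1) n A ∧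
      percTime (m + 1) (2 * m + 1) n A = T}.Nonempty := by
    by_contra h
    rw [Set.not_nonempty_iff_eq_empty] at h
    unfold maxTime at h0
    rw [h] at h0
    simp at h0
  obtain ⟨A, hA, hT⟩ := Nat.sSup_mem hne (bddAbove (m + 1) (2 * m + 1) n)
  have hT' : percTime (m + 1) (2 * m + 1) n A = maxTime (m + 1) (2 * m + 1) n := hT
  obtain ⟨t, ht⟩ := exists_univ hA
  have hP : Perc (Gd (m + 1) n) (2 * m + 1) A :=
    (perc_iff _ _ _).2 ⟨t, by rw [← infected_eq]; exact ht⟩
  have huniv : infected (m + 1) (2 * m + 1) n A (percTime (m + 1) (2 * m + 1) n A) = Set.univ :=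
    Nat.sInf_mem (exists_univ hA)
  have hex : ∃ v, tau (Gd (m + 1) n) (2 * m + 1) A v = percTime (m + 1) (2 * m + 1) n A := by
    by_contra hcon
    push Not at hcon
    have hle : infected (m + 1) (2 * m + 1) n A (percTime (m + 1) (2 * m + 1) n A - 1) =
        Set.univ := by
      apply Set.eq_univ_of_forall
      intro v
      rw [infected_eq, mem_proc_iff hP]
      have h1 : v ∈ infected (m + 1) (2 * m + 1) n A (percTime (m + 1) (2 * m + 1) n A) := by
        rw [huniv]; exact Set.mem_univ v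
      rw [infected_eq, mem_proc_iff hP] at h1
      have := hcon v
      omega
    have : percTime (m + 1) (2 * m + 1) n A ≤ percTime (m + 1) (2 * m + 1) n A - 1 :=
      Nat.sInf_le hle
    omega
  obtain ⟨v, hv⟩ := hex
  rw [hT'] at hv
  exact upper_top' (by omega) hP hv

/-- `M_{2d-1}^d(n) ≥ n^d / 2 - O(n^{d-1})` for every `d ≥ 3`, and
`M_{2d-1}^d(n) ≤ n^d / 2 + O(n^{d-1})` for every `d ≥ 4`. -/
theorem main : (∀ d n : ℕ, 3 ≤ d →
      (n : ℝ) ^ d - 15 * d * (n : ℝ) ^ (d - 1) ≤ 2 * maxTime d (2 * d - 1) n) ∧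
    ∀ d n : ℕ, 4 ≤ d → 2 * maxTime d (2 * d - 1) n ≤ (n + 1) ^ d :=
  ⟨lower, upper⟩

end Pool.Agent.Helper18.Snake.Top
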